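import Mathlib
import Pool.Agent.TH855.Count

set_option autoImplicit false

/-!
# The hard-core model on the induced subgraphs of a graph: sums over independent sets
-/

namespace Pool.Agent.Helper953TT

open Finset Classical Pool.Agent.TH855

set_option linter.unusedSectionVars false

variable {V : Type} [Fintype V] (G : SimpleGraph V) (lam : ℝ)

/-- Weighted sum over the independent subsets of `N`, fugacity `lam`. -/
noncomputable def Sm (N : Finset V) (φ : Finset V → ℝ) : ℝ :=
  ∑ A ∈ Ind G N, lam ^ A.card * φ A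

/-- The partition function. -/
noncomputable def ZZ (N : Finset V) : ℝ := Sm G lam N (fun _ => 1)

/-- the vertices of `N` without neighbours in `A` -/
noncomputable def Av (N A : Finset V) : Finset V := N.filter (fun u => ∀ w ∈ A, ¬ G.Adj u w)

variable {G lam}

theorem mem_Av {N A : Finset V} {u : V} : u ∈ Av G N A ↔ u ∈ N ∧ ∀ w ∈ A, ¬ G.Adj u w := by
  rw [Av, Finset.mem_filter]

theorem Sm_mono (hl : 0 ≤ lam) {N : Finset V} {φ ψ : Finset V → ℝ}
    (h : ∀ A ∈ Ind G N, φ A ≤ ψ A) : Sm G lam N φ ≤ Sm G lam N ψ :=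
  Finset.sum_le_sum fun A hA => mul_le_mul_of_nonneg_left (h A hA) (by positivity)

theorem Sm_congr {N : Finset V} {φ ψ : Finset V → ℝ}
    (h : ∀ A ∈ Ind G N, φ A = ψ A) : Sm G lam N φ = Sm G lam N ψ :=
  Finset.sum_congr rfl fun A hA => by rw [h A hA]

theorem Sm_nonneg (hl : 0 ≤ lam) {N : Finset V} {φ : Finset V → ℝ}
    (h : ∀ A ∈ Ind G N, 0 ≤ φ A) : 0 ≤ Sm G lam N φ :=
  Finset.sum_nonneg fun A hA => mul_nonneg (by positivity) (h A hA)

theorem Sm_add (N : Finset V) (φ ψ : Finset V → ℝ) :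
    Sm G lam N (fun A => φ A + ψ A) = Sm G lam N φ + Sm G lam N ψ := by
  rw [Sm, Sm, Sm, ← Finset.sum_add_distrib]
  exact Finset.sum_congr rfl fun A _ => by ring

theorem Sm_smul (N : Finset V) (c : ℝ) (φ : Finset V → ℝ) :
    Sm G lam N (fun A => c * φ A) = c * Sm G lam N φ := by
  rw [Sm, Sm, Finset.mul_sum]
  exact Finset.sum_congr rfl fun A _ => by ring

theorem Sm_const (N : Finset V) (c : ℝ) : Sm G lam N (fun _ => c) = c * ZZ G lam N := by
  rw [ZZ, ← Sm_smul]
  exact Sm_congr fun A _ => by ring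

theorem Sm_sum {ι : Type} (s : Finset ι) (N : Finset V) (φ : ι → Finset V → ℝ) :
    Sm G lam N (fun A => ∑ i ∈ s, φ i A) = ∑ i ∈ s, Sm G lam N (φ i) := by
  simp only [Sm, Finset.mul_sum]
  exact Finset.sum_comm

theorem empty_mem_ind (N : Finset V) : (∅ : Finset V) ∈ Ind G N := by
  rw [mem_ind]; simp

theorem ZZ_ge_one (hl : 0 ≤ lam) (N : Finset V) : 1 ≤ ZZ G lam N := by
  have h := Finset.single_le_sum (f := fun A : Finset V => lam ^ A.card * (1 : ℝ))
    (fun A _ => by positivity) (empty_mem_ind (G := G) N)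
  simp only [Finset.card_empty, pow_zero, mul_one] at h
  simpa [ZZ, Sm] using h

theorem ZZ_pos (hl : 0 ≤ lam) (N : Finset V) : 0 < ZZ G lam N :=
  lt_of_lt_of_le one_pos (ZZ_ge_one hl N)

theorem ind_mono {M N : Finset V} (h : M ⊆ N) : Ind G M ⊆ Ind G N := by
  intro A hA
  rw [mem_ind] at hA ⊢
  exact ⟨hA.1.trans h, hA.2⟩

theorem ZZ_mono (hl : 0 ≤ lam) {M N : Finset V} (h : M ⊆ N) : ZZ G lam M ≤ ZZ G lam N := by
  refine Finset.sum_le_sum_of_subset_of_nonneg (ind_mono h) ?_
  intro A _ _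
  positivity

/-- Conditioning: for disjoint `X` and `Y`, first sum over the part in `X`. -/
theorem Sm_union {X Y : Finset V} (hXY : Disjoint X Y) (φ : Finset V → ℝ) :
    Sm G lam (X ∪ Y) φ =
      ∑ J ∈ Ind G X, lam ^ J.card * Sm G lam (Av G Y J) (fun I => φ (J ∪ I)) := by
  simp only [Sm, Finset.mul_sum]
  rw [Finset.sum_sigma']
  refine Finset.sum_bij' (fun A _ => (⟨A ∩ X, A ∩ Y⟩ : Σ _ : Finset V, Finset V))
    (fun p _ => p.1 ∪ p.2) ?_ ?_ ?_ ?_ ?_
  · intro A hA
    rw [mem_ind] at hA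
    rw [Finset.mem_sigma, mem_ind, mem_ind]
    refine ⟨⟨Finset.inter_subset_right, fun a ha b hb =>
      hA.2 a (Finset.mem_inter.1 ha).1 b (Finset.mem_inter.1 hb).1⟩, ?_, fun a ha b hb =>
      hA.2 a (Finset.mem_inter.1 ha).1 b (Finset.mem_inter.1 hb).1⟩
    intro a ha
    rw [mem_Av]
    exact ⟨(Finset.mem_inter.1 ha).2, fun b hb =>
      hA.2 a (Finset.mem_inter.1 ha).1 b (Finset.mem_inter.1 hb).1⟩
  · rintro ⟨J, I⟩ hp
    rw [Finset.mem_sigma, mem_ind, mem_ind] at hp
    obtain ⟨⟨hJ, hJ2⟩, hI, hI2⟩ := hp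
    rw [mem_ind]
    have hIY : ∀ a ∈ I, a ∈ Y ∧ ∀ b ∈ J, ¬ G.Adj a b := fun a ha => mem_Av.1 (hI ha)
    refine ⟨Finset.union_subset (hJ.trans Finset.subset_union_left)
      (fun a ha => Finset.mem_union_right _ (hIY a ha).1), ?_⟩
    intro a ha b hb
    rcases Finset.mem_union.1 ha with ha | ha <;> rcases Finset.mem_union.1 hb with hb | hb
    · exact hJ2 a ha b hb
    · exact fun h => (hIY b hb).2 a ha h.symm
    · exact (hIY a ha).2 b hb
    · exact hI2 a ha b hb
  · intro A hA
    rw [mem_ind] at hA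
    change A ∩ X ∪ A ∩ Y = A
    rw [← Finset.inter_union_distrib_left]
    exact Finset.inter_eq_left.2 hA.1
  · rintro ⟨J, I⟩ hp
    rw [Finset.mem_sigma, mem_ind, mem_ind] at hp
    obtain ⟨⟨hJ, hJ2⟩, hI, hI2⟩ := hp
    have hIY : I ⊆ Y := fun a ha => (mem_Av.1 (hI ha)).1
    have e1 : (J ∪ I) ∩ X = J := by
      ext a
      simp only [Finset.mem_inter, Finset.mem_union]
      constructor
      · rintro ⟨h | h, hX⟩
        · exact h
        · exact absurd hX (fun hX => Finset.disjoint_left.1 hXY hX (hIY h))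
      · intro h
        exact ⟨Or.inl h, hJ h⟩
    have e2 : (J ∪ I) ∩ Y = I := by
      ext a
      simp only [Finset.mem_inter, Finset.mem_union]
      constructor
      · rintro ⟨h | h, hY⟩
        · exact absurd hY (fun hY => Finset.disjoint_left.1 hXY (hJ h) hY)
        · exact h
      · intro h
        exact ⟨Or.inr h, hIY h⟩
    simp only [e1, e2]
  · intro A hA
    rw [mem_ind] at hA
    have e : A ∩ X ∪ A ∩ Y = A := by
      rw [← Finset.inter_union_distrib_left]
      exact Finset.inter_eq_left.2 hA.1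
    have hd : Disjoint (A ∩ X) (A ∩ Y) :=
      Finset.disjoint_of_subset_left Finset.inter_subset_right
        (Finset.disjoint_of_subset_right Finset.inter_subset_right hXY)
    have hc : A.card = (A ∩ X).card + (A ∩ Y).card := by
      rw [← Finset.card_union_of_disjoint hd, e]
    simp only [e]
    rw [hc, pow_add]
    ring

/-- the neighbours of `a` in `N` -/
noncomputable def Nb (G : SimpleGraph V) (N : Finset V) (a : V) : Finset V :=
  N.filter (fun u => G.Adj a u)

/-- `N` without `a` and its neighbours -/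
noncomputable def Rm (G : SimpleGraph V) (N : Finset V) (a : V) : Finset V :=
  N.filter (fun u => u ≠ a ∧ ¬ G.Adj a u)

theorem mem_Nb {N : Finset V} {a u : V} : u ∈ Nb G N a ↔ u ∈ N ∧ G.Adj a u := by
  rw [Nb, Finset.mem_filter]

theorem mem_Rm {N : Finset V} {a u : V} : u ∈ Rm G N a ↔ u ∈ N ∧ u ≠ a ∧ ¬ G.Adj a u := by
  rw [Rm, Finset.mem_filter]

/-- Conditioning on whether `a` is occupied. -/
theorem Sm_rec {N : Finset V} {a : V} (ha : a ∈ N) (φ : Finset V → ℝ) :
    Sm G lam N φ = Sm G lam (N.erase a) φ +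
      lam * Sm G lam (Rm G N a) (fun A => φ (insert a A)) := by
  have hN : N = {a} ∪ N.erase a := by
    rw [← Finset.insert_eq, Finset.insert_erase ha]
  have hd : Disjoint ({a} : Finset V) (N.erase a) := by
    rw [Finset.disjoint_singleton_left]; exact Finset.notMem_erase _ _
  have h1 : Sm G lam N φ = Sm G lam ({a} ∪ N.erase a) φ := by rw [← hN]
  rw [h1, Sm_union hd]
  have hind : Ind G ({a} : Finset V) = {∅, {a}} := by
    ext A
    rw [mem_ind, Finset.subset_singleton_iff, Finset.mem_insert, Finset.mem_singleton]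
    constructor
    · exact fun h => h.1
    · rintro (h | h)
      · subst h; simp
      · subst h
        refine ⟨Or.inr rfl, ?_⟩
        intro u hu w hw
        rw [Finset.mem_singleton] at hu hw
        subst hu; subst hw
        exact G.loopless.irrefl _
  rw [hind, Finset.sum_pair (by
    intro h
    exact absurd (h ▸ Finset.mem_singleton_self a : a ∈ (∅ : Finset V)) (Finset.notMem_empty _))]
  have e1 : Av G (N.erase a) (∅ : Finset V) = N.erase a := by
    ext u; rw [mem_Av]; simp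
  have e2 : Av G (N.erase a) ({a} : Finset V) = Rm G N a := by
    ext u
    rw [mem_Av, mem_Rm, Finset.mem_erase]
    constructor
    · rintro ⟨⟨h1, h2⟩, h3⟩
      exact ⟨h2, h1, fun h => h3 a (Finset.mem_singleton_self a) h.symm⟩
    · rintro ⟨h1, h2, h3⟩
      refine ⟨⟨h2, h1⟩, ?_⟩
      intro w hw h
      rw [Finset.mem_singleton] at hw
      subst hw
      exact h3 h.symm
  rw [e1, e2]
  simp only [Finset.card_empty, pow_zero, one_mul, Finset.card_singleton, pow_one,
    Finset.empty_union]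
  congr 1

theorem ZZ_rec {N : Finset V} {a : V} (ha : a ∈ N) :
    ZZ G lam N = ZZ G lam (N.erase a) + lam * ZZ G lam (Rm G N a) := by
  rw [ZZ, Sm_rec ha]
  rfl

/-- Conditioning on everything outside the neighbourhood of `v`. -/
theorem Sm_vertex {H : Finset V} {v : V} (hv : v ∈ H) (φ : Finset V → ℝ) :
    Sm G lam H φ = ∑ J ∈ Ind G (Rm G H v), lam ^ J.card *
      (lam * φ (insert v J) + Sm G lam (Av G (Nb G H v) J) (fun I => φ (J ∪ I))) := by
  rw [Sm_rec hv]
  have hd : Disjoint (Rm G H v) (Nb G H v) := by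
    rw [Finset.disjoint_left]
    intro u h1 h2
    exact (mem_Rm.1 h1).2.2 (mem_Nb.1 h2).2
  have he : H.erase v = Rm G H v ∪ Nb G H v := by
    ext u
    rw [Finset.mem_erase, Finset.mem_union, mem_Rm, mem_Nb]
    constructor
    · rintro ⟨h1, h2⟩
      by_cases h : G.Adj v u
      · exact Or.inr ⟨h2, h⟩
      · exact Or.inl ⟨h2, h1, h⟩
    · rintro (⟨h1, h2, _⟩ | ⟨h1, h2⟩)
      · exact ⟨h2, h1⟩
      · exact ⟨h2.ne', h1⟩
  rw [he, Sm_union hd]
  simp only [mul_add, Finset.sum_add_distrib]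
  rw [add_comm]
  congr 1
  rw [Sm, Finset.mul_sum]
  exact Finset.sum_congr rfl fun A _ => by ring

end Pool.Agent.Helper953TT
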