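import Mathlib
import Pool.Agent.Helper953_TT.Rec

set_option autoImplicit false

/-!
# Occupancy of a neighbourhood in which dense spots are unlikely to be free
-/

namespace Pool.Agent.Helper953TT

open Finset Classical Pool.Agent.TH855

set_option linter.unusedSectionVars false

variable {V : Type} [Fintype V] {G : SimpleGraph V} {lam : ℝ}

/-- `S` contains `t` vertices with more than `t` common neighbours in `S`. -/
def PP (G : SimpleGraph V) (t : ℕ) (S : Finset V) : Prop :=
  ∃ W ⊆ S, W.card = t ∧ t < (S.filter (fun u => ∀ w ∈ W, G.Adj u w)).card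

theorem PP_mono {t : ℕ} {S S' : Finset V} (h : S ⊆ S') (hS : PP G t S) : PP G t S' := by
  obtain ⟨W, hW, hc, hlt⟩ := hS
  refine ⟨W, hW.trans h, hc, lt_of_lt_of_le hlt (Finset.card_le_card ?_)⟩
  exact Finset.filter_subset_filter _ h

/-- number of occupied vertices plus `c` if the free part contains a dense spot -/
noncomputable def FF (G : SimpleGraph V) (t : ℕ) (c : ℝ) (N I : Finset V) : ℝ :=
  (I.card : ℝ) + c * (if PP G t (Av G N I) then 1 else 0)

theorem Av_mono {N N' I : Finset V} (h : N ⊆ N') : Av G N I ⊆ Av G N' I :=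
  Finset.filter_subset_filter _ h

theorem Av_empty (N : Finset V) : Av G N ∅ = N := by
  ext u; rw [mem_Av]; simp

theorem sm_mem {N : Finset V} {a : V} (ha : a ∈ N) :
    Sm G lam N (fun A => if a ∈ A then (1 : ℝ) else 0) = lam * ZZ G lam (Rm G N a) := by
  rw [Sm_rec ha]
  have h1 : Sm G lam (N.erase a) (fun A => if a ∈ A then (1 : ℝ) else 0) = 0 := by
    rw [Sm]
    refine Finset.sum_eq_zero fun A hA => ?_
    rw [mem_ind] at hA
    have : a ∉ A := fun h => Finset.notMem_erase a N (hA.1 h)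
    rw [if_neg this, mul_zero]
  rw [h1, zero_add, ZZ]
  congr 1
  refine Sm_congr fun A _ => ?_
  rw [if_pos (Finset.mem_insert_self _ _)]

theorem sm_card (N : Finset V) :
    Sm G lam N (fun A => (A.card : ℝ)) = ∑ a ∈ N, lam * ZZ G lam (Rm G N a) := by
  rw [← Finset.sum_congr rfl (fun a ha => sm_mem (G := G) (lam := lam) ha), ← Sm_sum]
  refine Sm_congr fun A hA => ?_
  rw [mem_ind] at hA
  rw [← Finset.sum_filter, Finset.sum_const, nsmul_eq_mul, mul_one]
  congr 1
  congr 1
  ext u
  rw [Finset.mem_filter]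
  exact ⟨fun h => ⟨hA.1 h, h⟩, fun h => h.2⟩

theorem sm_card_ge (hl : 0 ≤ lam) (N : Finset V) :
    ZZ G lam N - 1 ≤ Sm G lam N (fun A => (A.card : ℝ)) := by
  have h1 : ZZ G lam N = Sm G lam N (fun A => (if A = ∅ then 1 else 0) +
      (if A = ∅ then 0 else 1)) := by
    rw [ZZ]
    refine Sm_congr fun A _ => ?_
    by_cases h : A = ∅
    · simp [h]
    · simp [h]
  have h2 : Sm G lam N (fun A => if A = ∅ then (1 : ℝ) else 0) = 1 := by
    rw [Sm, Finset.sum_eq_single (∅ : Finset V)]
    · simp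
    · intro A _ hA
      rw [if_neg hA, mul_zero]
    · intro h
      exact absurd (empty_mem_ind N) h
  have h3 : Sm G lam N (fun A => if A = ∅ then (0 : ℝ) else 1) ≤
      Sm G lam N (fun A => (A.card : ℝ)) := by
    refine Sm_mono hl fun A _ => ?_
    by_cases h : A = ∅
    · simp [h]
    · rw [if_neg h]
      have : 1 ≤ A.card := Finset.card_pos.2 (Finset.nonempty_iff_ne_empty.2 h)
      exact_mod_cast this
  rw [h1, Sm_add, h2]
  linarith

theorem core (hl : 0 < lam) (hl1 : lam ≤ 1) (t : ℕ) {c h0 E0 BB : ℝ} (hBB : 1 ≤ BB)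
    (h0n : 0 ≤ h0) (hE : 2 ≤ E0) (hc : h0 * E0 ≤ c)
    (hocc : ∀ N : Finset V, ¬ PP G t N → E0 / (2 * BB) ≤ ZZ G lam N →
      h0 * ZZ G lam N ≤ Sm G lam N (fun A => (A.card : ℝ))) :
    ∀ n : ℕ, ∀ N : Finset V, N.card = n → (N.card : ℝ) ≤ BB → E0 / (2 * BB) ≤ ZZ G lam N →
      h0 * ZZ G lam N ≤ Sm G lam N (FF G t c N) := by
  have hc0 : 0 ≤ c := le_trans (by positivity) hc
  intro n
  induction n using Nat.strong_induction_on with
  | _ n ih =>
    intro N hn hNB hZ
    have hFcard : Sm G lam N (fun A => (A.card : ℝ)) ≤ Sm G lam N (FF G t c N) := by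
      refine Sm_mono hl.le fun A _ => ?_
      rw [FF]
      have : 0 ≤ c * (if PP G t (Av G N A) then (1 : ℝ) else 0) := by
        refine mul_nonneg hc0 ?_
        split_ifs <;> norm_num
      linarith
    by_cases hZE : ZZ G lam N ≤ E0
    · by_cases hP : PP G t N
      · have h1 : lam ^ (∅ : Finset V).card * FF G t c N ∅ ≤ Sm G lam N (FF G t c N) := by
          refine Finset.single_le_sum (f := fun A : Finset V => lam ^ A.card * FF G t c N A)
            (fun A _ => ?_) (empty_mem_ind N)
          refine mul_nonneg (by positivity) ?_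
          rw [FF]
          refine add_nonneg (by positivity) (mul_nonneg hc0 ?_)
          split_ifs <;> norm_num
        have h2 : FF G t c N ∅ = c := by
          rw [FF, Av_empty, if_pos hP]; simp
        rw [h2, Finset.card_empty, pow_zero, one_mul] at h1
        have h3 := mul_le_mul_of_nonneg_left hZE h0n
        linarith
      · exact (hocc N hP hZ).trans hFcard
    · push Not at hZE
      have hBB0 : 0 < 2 * BB := by linarith
      obtain ⟨a, ha, haZ⟩ : ∃ a ∈ N, ZZ G lam N / (2 * BB) ≤ lam * ZZ G lam (Rm G N a) := by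
        by_contra hcon
        push Not at hcon
        have h1 := sm_card_ge (G := G) hl.le N
        rw [sm_card] at h1
        have h2 : ∑ a ∈ N, lam * ZZ G lam (Rm G N a) ≤ ∑ _a ∈ N, ZZ G lam N / (2 * BB) :=
          Finset.sum_le_sum fun a ha => (hcon a ha).le
        rw [Finset.sum_const, nsmul_eq_mul] at h2
        have hZp := ZZ_pos (G := G) hl.le N
        have h3 : (N.card : ℝ) * (ZZ G lam N / (2 * BB)) ≤ BB * (ZZ G lam N / (2 * BB)) :=
          mul_le_mul_of_nonneg_right hNB (by positivity)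
        have h4 : BB * (ZZ G lam N / (2 * BB)) = ZZ G lam N / 2 := by
          field_simp
        rw [h4] at h3
        linarith
      have hRm1 : lam * ZZ G lam (Rm G N a) ≤ ZZ G lam (Rm G N a) := by
        have := ZZ_pos (G := G) hl.le (Rm G N a)
        nlinarith
      have hsub : Rm G N a ⊆ N.erase a := by
        intro u hu
        rw [mem_Rm] at hu
        rw [Finset.mem_erase]
        exact ⟨hu.2.1, hu.1⟩
      have hZR : E0 / (2 * BB) ≤ ZZ G lam (Rm G N a) := by
        have : E0 / (2 * BB) ≤ ZZ G lam N / (2 * BB) := by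
          exact div_le_div_of_nonneg_right hZE.le hBB0.le
        linarith
      have hZe : E0 / (2 * BB) ≤ ZZ G lam (N.erase a) := hZR.trans (ZZ_mono hl.le hsub)
      have hce : (N.erase a).card < n := by
        rw [← hn]; exact Finset.card_erase_lt_of_mem ha
      have hcr : (Rm G N a).card < n := lt_of_le_of_lt (Finset.card_le_card hsub) hce
      have hceR : ((N.erase a).card : ℝ) ≤ BB := by
        have : ((N.erase a).card : ℝ) ≤ (N.card : ℝ) := by
          rw [hn]; exact_mod_cast hce.le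
        linarith
      have hcrR : ((Rm G N a).card : ℝ) ≤ BB := by
        have : ((Rm G N a).card : ℝ) ≤ (N.card : ℝ) := by
          rw [hn]; exact_mod_cast hcr.le
        linarith
      have i1 := ih _ hce (N.erase a) rfl hceR hZe
      have i2 := ih _ hcr (Rm G N a) rfl hcrR hZR
      rw [Sm_rec ha, ZZ_rec ha, mul_add]
      have j1 : Sm G lam (N.erase a) (FF G t c (N.erase a)) ≤
          Sm G lam (N.erase a) (FF G t c N) := by
        refine Sm_mono hl.le fun A _ => ?_
        rw [FF, FF]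
        have : (if PP G t (Av G (N.erase a) A) then (1 : ℝ) else 0) ≤
            (if PP G t (Av G N A) then (1 : ℝ) else 0) := by
          by_cases h : PP G t (Av G (N.erase a) A)
          · rw [if_pos h, if_pos (PP_mono (Av_mono (Finset.erase_subset _ _)) h)]
          · rw [if_neg h]; split_ifs <;> norm_num
        have := mul_le_mul_of_nonneg_left this hc0
        linarith
      have j2 : Sm G lam (Rm G N a) (FF G t c (Rm G N a)) ≤
          Sm G lam (Rm G N a) (fun A => FF G t c N (insert a A)) := by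
        refine Sm_mono hl.le fun A hA => ?_
        rw [FF, FF]
        have e1 : (A.card : ℝ) ≤ ((insert a A).card : ℝ) := by
          exact_mod_cast Finset.card_le_card (Finset.subset_insert _ _)
        have hsub2 : Av G (Rm G N a) A ⊆ Av G N (insert a A) := by
          intro u hu
          rw [mem_Av, mem_Rm] at hu
          rw [mem_Av]
          refine ⟨hu.1.1, ?_⟩
          intro w hw
          rcases Finset.mem_insert.1 hw with h | h
          · subst h
            exact fun h' => hu.1.2.2 h'.symm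
          · exact hu.2 w h
        have : (if PP G t (Av G (Rm G N a) A) then (1 : ℝ) else 0) ≤
            (if PP G t (Av G N (insert a A)) then (1 : ℝ) else 0) := by
          by_cases h : PP G t (Av G (Rm G N a) A)
          · rw [if_pos h, if_pos (PP_mono hsub2 h)]
          · rw [if_neg h]; split_ifs <;> norm_num
        have := mul_le_mul_of_nonneg_left this hc0
        linarith
      have k1 := i1.trans j1
      have k2 := mul_le_mul_of_nonneg_left (i2.trans j2) hl.le
      linarith

/-- **Local inequality** at a vertex `v`. -/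
theorem local_ineq (hl : 0 < lam) {t : ℕ} {c h0 M' : ℝ} (hc0 : 0 ≤ c) (hM : 0 ≤ M')
    {H : Finset V} {v : V} (hv : v ∈ H)
    (hinner : ∀ N ⊆ Nb G H v, h0 * (lam + ZZ G lam N) ≤ lam * M' + Sm G lam N (FF G t c N)) :
    h0 * ZZ G lam H ≤ (∑ u ∈ Nb G H v, Sm G lam H (fun A => if u ∈ A then (1 : ℝ) else 0)) +
      c * Sm G lam H (fun A => if PP G t (Av G (Nb G H v) A) then (1 : ℝ) else 0) +
      M' * Sm G lam H (fun A => if v ∈ A then (1 : ℝ) else 0) := by
  rw [← Sm_sum, ← Sm_smul, ← Sm_smul, ← Sm_add, ← Sm_add]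
  rw [Sm_vertex hv, ZZ, Sm_vertex hv, Finset.mul_sum]
  refine Finset.sum_le_sum fun J hJ => ?_
  rw [mem_ind] at hJ
  have hpow : 0 ≤ lam ^ J.card := by positivity
  have hN := hinner (Av G (Nb G H v) J) (by intro u hu; exact (mem_Av.1 hu).1)
  have hcN : ∀ X : Finset V, 0 ≤ c * (if PP G t X then (1 : ℝ) else 0) := by
    intro X
    refine mul_nonneg hc0 ?_
    split_ifs <;> norm_num
  have h1 : M' ≤ (∑ u ∈ Nb G H v, (if u ∈ insert v J then (1 : ℝ) else 0)) +
      c * (if PP G t (Av G (Nb G H v) (insert v J)) then (1 : ℝ) else 0) +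
      M' * (if v ∈ insert v J then (1 : ℝ) else 0) := by
    rw [if_pos (Finset.mem_insert_self v J), mul_one]
    have e1 : 0 ≤ ∑ u ∈ Nb G H v, (if u ∈ insert v J then (1 : ℝ) else 0) :=
      Finset.sum_nonneg fun u _ => by split_ifs <;> norm_num
    have e2 := hcN (Av G (Nb G H v) (insert v J))
    linarith
  have h2 : Sm G lam (Av G (Nb G H v) J) (FF G t c (Av G (Nb G H v) J)) ≤
      Sm G lam (Av G (Nb G H v) J) (fun I =>
        (∑ u ∈ Nb G H v, (if u ∈ J ∪ I then (1 : ℝ) else 0)) +
        c * (if PP G t (Av G (Nb G H v) (J ∪ I)) then (1 : ℝ) else 0) +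
        M' * (if v ∈ J ∪ I then (1 : ℝ) else 0)) := by
    refine Sm_mono hl.le fun I hI => ?_
    rw [mem_ind] at hI
    have e0 : Av G (Nb G H v) (J ∪ I) = Av G (Av G (Nb G H v) J) I := by
      ext u
      rw [mem_Av, mem_Av, mem_Av]
      constructor
      · rintro ⟨a1, a2⟩
        exact ⟨⟨a1, fun w hw => a2 w (Finset.mem_union_left _ hw)⟩,
          fun w hw => a2 w (Finset.mem_union_right _ hw)⟩
      · rintro ⟨⟨a1, a2⟩, a3⟩
        refine ⟨a1, fun w hw => ?_⟩
        rcases Finset.mem_union.1 hw with h | h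
        · exact a2 w h
        · exact a3 w h
    rw [FF, e0]
    have e1 : (I.card : ℝ) ≤ ∑ u ∈ Nb G H v, (if u ∈ J ∪ I then (1 : ℝ) else 0) := by
      rw [← Finset.sum_filter, Finset.sum_const, nsmul_eq_mul, mul_one]
      have : I ⊆ (Nb G H v).filter (fun u => u ∈ J ∪ I) := by
        intro u hu
        rw [Finset.mem_filter]
        exact ⟨(mem_Av.1 (hI.1 hu)).1, Finset.mem_union_right _ hu⟩
      exact_mod_cast Finset.card_le_card this
    have e2 : 0 ≤ M' * (if v ∈ J ∪ I then (1 : ℝ) else 0) := by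
      refine mul_nonneg hM ?_
      split_ifs <;> norm_num
    linarith
  have h3 := mul_le_mul_of_nonneg_left h1 hl.le
  have h4 : h0 * (lam * 1 + Sm G lam (Av G (Nb G H v) J) (fun _ => 1)) ≤
      lam * ((∑ u ∈ Nb G H v, (if u ∈ insert v J then (1 : ℝ) else 0)) +
      c * (if PP G t (Av G (Nb G H v) (insert v J)) then (1 : ℝ) else 0) +
      M' * (if v ∈ insert v J then (1 : ℝ) else 0)) +
      Sm G lam (Av G (Nb G H v) J) (fun I =>
        (∑ u ∈ Nb G H v, (if u ∈ J ∪ I then (1 : ℝ) else 0)) +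
        c * (if PP G t (Av G (Nb G H v) (J ∪ I)) then (1 : ℝ) else 0) +
        M' * (if v ∈ J ∪ I then (1 : ℝ) else 0)) := by
    have : h0 * (lam * 1 + Sm G lam (Av G (Nb G H v) J) (fun _ => 1)) =
        h0 * (lam + ZZ G lam (Av G (Nb G H v) J)) := by rw [mul_one, ZZ]
    rw [this]
    linarith
  calc h0 * (lam ^ J.card * (lam * 1 + Sm G lam (Av G (Nb G H v) J) (fun _ => 1))) =
      lam ^ J.card * (h0 * (lam * 1 + Sm G lam (Av G (Nb G H v) J) (fun _ => 1))) := by ring
    _ ≤ _ := mul_le_mul_of_nonneg_left h4 hpow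

/-- A free vertex with many free neighbours is unlikely. -/
theorem bad_degree (hl : 0 < lam) {BB Zb : ℝ} (hBB : 0 ≤ BB) (hZb : 0 < Zb)
    {H : Finset V} {u : V} (hu : u ∈ H)
    (hbig : ∀ N ⊆ Nb G H u, BB < (N.card : ℝ) → Zb ≤ ZZ G lam N) :
    Sm G lam H (fun A => if (u ∈ Av G H A ∧ BB < ((Nb G (Av G H A) u).card : ℝ)) then (1 : ℝ)
      else 0) ≤ 1 / Zb * ZZ G lam H := by
  rw [Sm_vertex hu, ZZ, Sm_vertex hu, Finset.mul_sum]
  refine Finset.sum_le_sum fun J hJ => ?_
  rw [mem_ind] at hJ
  have hpow : 0 ≤ lam ^ J.card := by positivity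
  have h1 : (if (u ∈ Av G H (insert u J) ∧
      BB < ((Nb G (Av G H (insert u J)) u).card : ℝ)) then (1 : ℝ) else 0) = 0 := by
    rw [if_neg]
    rintro ⟨_, h⟩
    have : Nb G (Av G H (insert u J)) u = ∅ := by
      rw [Finset.eq_empty_iff_forall_notMem]
      intro x hx
      rw [mem_Nb, mem_Av] at hx
      exact hx.1.2 u (Finset.mem_insert_self _ _) hx.2.symm
    rw [this, Finset.card_empty] at h
    push_cast at h
    linarith
  have hJv : ∀ w ∈ J, ¬ G.Adj u w := fun w hw => (mem_Rm.1 (hJ.1 hw)).2.2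
  have e0 : Nb G (Av G H J) u = Av G (Nb G H u) J := by
    ext x
    rw [mem_Nb, mem_Av, mem_Av, mem_Nb]
    tauto
  have h2 : Sm G lam (Av G (Nb G H u) J) (fun I => if (u ∈ Av G H (J ∪ I) ∧
      BB < ((Nb G (Av G H (J ∪ I)) u).card : ℝ)) then (1 : ℝ) else 0) ≤
      1 / Zb * Sm G lam (Av G (Nb G H u) J) (fun _ => 1) := by
    have h3 : Sm G lam (Av G (Nb G H u) J) (fun I => if (u ∈ Av G H (J ∪ I) ∧
        BB < ((Nb G (Av G H (J ∪ I)) u).card : ℝ)) then (1 : ℝ) else 0) =
        if BB < ((Av G (Nb G H u) J).card : ℝ) then 1 else 0 := by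
      rw [Sm, Finset.sum_eq_single (∅ : Finset V)]
      · rw [Finset.card_empty, pow_zero, one_mul, Finset.union_empty, e0]
        have : u ∈ Av G H J := mem_Av.2 ⟨hu, hJv⟩
        simp [this]
      · intro I hI hne
        rw [mem_ind] at hI
        rw [if_neg, mul_zero]
        rintro ⟨h, _⟩
        obtain ⟨x, hx⟩ := Finset.nonempty_iff_ne_empty.2 hne
        have h4 := mem_Nb.1 (mem_Av.1 (hI.1 hx)).1
        exact (mem_Av.1 h).2 x (Finset.mem_union_right _ hx) h4.2
      · intro h
        exact absurd (empty_mem_ind _) h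
    rw [h3]
    by_cases hB : BB < ((Av G (Nb G H u) J).card : ℝ)
    · rw [if_pos hB]
      have h5 := hbig (Av G (Nb G H u) J) (by intro x hx; exact (mem_Av.1 hx).1) hB
      rw [ZZ] at h5
      rw [div_mul_eq_mul_div, one_mul, le_div_iff₀ hZb]
      linarith
    · rw [if_neg hB]
      exact mul_nonneg (by positivity) (Sm_nonneg hl.le fun _ _ => by norm_num)
  rw [h1, mul_zero, zero_add]
  calc lam ^ J.card * _ ≤ lam ^ J.card * (1 / Zb * Sm G lam (Av G (Nb G H u) J) (fun _ => 1)) :=
        mul_le_mul_of_nonneg_left h2 hpow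
    _ ≤ 1 / Zb * (lam ^ J.card * (lam * 1 + Sm G lam (Av G (Nb G H u) J) (fun _ => 1))) := by
        have : 0 ≤ 1 / Zb * (lam ^ J.card * (lam * 1)) := by positivity
        nlinarith

/-- A vertex is free with probability at most `2 / lam` times the probability that it is
occupied. -/
theorem free_le (hl : 0 < lam) (hl1 : lam ≤ 1) {H : Finset V} {x : V} (hx : x ∈ H) :
    Sm G lam H (fun A => if x ∈ Av G H A then (1 : ℝ) else 0) ≤
      2 / lam * Sm G lam H (fun A => if x ∈ A then (1 : ℝ) else 0) := by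
  rw [sm_mem hx, Sm_rec hx]
  have h1 : Sm G lam (H.erase x) (fun A => if x ∈ Av G H A then (1 : ℝ) else 0) =
      ZZ G lam (Rm G H x) := by
    rw [Sm, ZZ, Sm]
    have hsub : Ind G (Rm G H x) ⊆ Ind G (H.erase x) := by
      refine ind_mono ?_
      intro u hu
      rw [mem_Rm] at hu
      exact Finset.mem_erase.2 ⟨hu.2.1, hu.1⟩
    rw [← Finset.sum_subset hsub]
    · refine Finset.sum_congr rfl fun A hA => ?_
      rw [mem_ind] at hA
      rw [if_pos]
      rw [mem_Av]
      exact ⟨hx, fun w hw => (mem_Rm.1 (hA.1 hw)).2.2⟩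
    · intro A hA hA2
      rw [mem_ind] at hA
      rw [if_neg, mul_zero]
      intro h
      rw [mem_Av] at h
      refine hA2 (mem_ind.2 ⟨?_, hA.2⟩)
      intro w hw
      have := Finset.mem_erase.1 (hA.1 hw)
      exact mem_Rm.2 ⟨this.2, this.1, h.2 w hw⟩
  have h2 : Sm G lam (Rm G H x) (fun A => if x ∈ Av G H (insert x A) then (1 : ℝ) else 0) ≤
      ZZ G lam (Rm G H x) := by
    refine Sm_mono hl.le fun A _ => ?_
    split_ifs <;> norm_num
  rw [h1]
  have hZ := ZZ_pos (G := G) hl.le (Rm G H x)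
  have e : 2 / lam * (lam * ZZ G lam (Rm G H x)) = 2 * ZZ G lam (Rm G H x) := by
    field_simp
  rw [e]
  have := mul_le_mul_of_nonneg_left h2 hl.le
  nlinarith

end Pool.Agent.Helper953TT
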