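import Mathlib
import Pool.Agent.Helper953_TT.Core

set_option autoImplicit false

/-!
# Large sets in graphs without large cliques, and the counting of dense spots
-/

namespace Pool.Agent.Helper953TT

open Finset Classical Pool.Agent.TH855

set_option linter.unusedSectionVars false

variable {V : Type} [Fintype V] {G : SimpleGraph V} {lam : ℝ}

theorem indep_of_deg (D : ℕ) (hD : 1 ≤ D) : ∀ k : ℕ, ∀ N : Finset V, k * D ≤ N.card →
    (∀ v ∈ N, (Nb G N v).card < D) → ∃ S ⊆ N, S.card = k ∧ ∀ u ∈ S, ∀ w ∈ S, ¬ G.Adj u w := by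
  intro k
  induction k with
  | zero =>
    intro N _ _
    exact ⟨∅, Finset.empty_subset _, rfl, by simp⟩
  | succ k ih =>
    intro N hN hdeg
    have hne : N.Nonempty := by
      rw [← Finset.card_pos]
      have : 0 < (k + 1) * D := by positivity
      omega
    obtain ⟨v, hv⟩ := hne
    have hcover : N ⊆ insert v (Rm G N v ∪ Nb G N v) := by
      intro u hu
      rw [Finset.mem_insert, Finset.mem_union, mem_Rm, mem_Nb]
      by_cases h1 : u = v
      · exact Or.inl h1
      · by_cases h2 : G.Adj v u
        · exact Or.inr (Or.inr ⟨hu, h2⟩)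
        · exact Or.inr (Or.inl ⟨hu, h1, h2⟩)
    have hcard : N.card ≤ (Rm G N v).card + (Nb G N v).card + 1 :=
      (Finset.card_le_card hcover).trans ((Finset.card_insert_le _ _).trans
        (Nat.add_le_add_right (Finset.card_union_le _ _) 1))
    have hd := hdeg v hv
    have hk : k * D ≤ (Rm G N v).card := by
      have : (k + 1) * D = k * D + D := by ring
      omega
    obtain ⟨S, hS, hSc, hSi⟩ := ih (Rm G N v) hk (by
      intro u hu
      refine lt_of_le_of_lt (Finset.card_le_card ?_) (hdeg u (mem_Rm.1 hu).1)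
      exact Finset.filter_subset_filter _ (Finset.filter_subset _ _))
    have hvS : v ∉ S := fun h => (mem_Rm.1 (hS h)).2.1 rfl
    refine ⟨insert v S, ?_, ?_, ?_⟩
    · rw [Finset.insert_subset_iff]
      exact ⟨hv, fun u hu => (mem_Rm.1 (hS hu)).1⟩
    · rw [Finset.card_insert_of_notMem hvS, hSc]
    · intro u hu w hw
      rcases Finset.mem_insert.1 hu with hu' | hu' <;>
        rcases Finset.mem_insert.1 hw with hw' | hw'
      · rw [hu', hw']; exact G.loopless.irrefl _
      · rw [hu']; exact (mem_Rm.1 (hS hw')).2.2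
      · rw [hw']; exact fun h => (mem_Rm.1 (hS hu')).2.2 h.symm
      · exact hSi u hu' w hw'

theorem indep_of_cliqueFree (k : ℕ) (hk : 1 ≤ k) : ∀ r : ℕ, ∀ N : Finset V,
    (∀ C ⊆ N, C.card = r + 1 → ¬ ∀ x ∈ C, ∀ y ∈ C, x ≠ y → G.Adj x y) → k ^ r ≤ N.card →
    ∃ S ⊆ N, S.card = k ∧ ∀ u ∈ S, ∀ w ∈ S, ¬ G.Adj u w := by
  intro r
  induction r with
  | zero =>
    intro N hcl hN
    exfalso
    rw [pow_zero] at hN
    obtain ⟨v, hv⟩ := Finset.card_pos.1 hN
    refine hcl {v} (Finset.singleton_subset_iff.2 hv) rfl ?_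
    intro x hx y hy hxy
    rw [Finset.mem_singleton] at hx hy
    exact absurd (hx.trans hy.symm) hxy
  | succ r ih =>
    intro N hcl hN
    by_cases h : ∃ v ∈ N, k ^ r ≤ (Nb G N v).card
    · obtain ⟨v, hv, hvk⟩ := h
      obtain ⟨S, hS, hSc, hSi⟩ := ih (Nb G N v) (by
        intro C hC hCc hclq
        have hvC : v ∉ C := fun h => G.loopless.irrefl _ (mem_Nb.1 (hC h)).2
        refine hcl (insert v C) ?_ ?_ ?_
        · rw [Finset.insert_subset_iff]
          exact ⟨hv, fun u hu => (mem_Nb.1 (hC hu)).1⟩
        · rw [Finset.card_insert_of_notMem hvC, hCc]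
        · intro x hx y hy hxy
          rcases Finset.mem_insert.1 hx with hx' | hx' <;>
            rcases Finset.mem_insert.1 hy with hy' | hy'
          · exact absurd (hx'.trans hy'.symm) hxy
          · rw [hx']; exact (mem_Nb.1 (hC hy')).2
          · rw [hy']; exact (mem_Nb.1 (hC hx')).2.symm
          · exact hclq x hx' y hy' hxy) hvk
      exact ⟨S, fun u hu => (mem_Nb.1 (hS hu)).1, hSc, hSi⟩
    · push Not at h
      refine indep_of_deg (k ^ r) (Nat.one_le_pow _ _ hk) k N ?_ h
      calc k * k ^ r = k ^ (r + 1) := by ring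
        _ ≤ N.card := hN

/-- A set of more than `k ^ r` vertices without cliques of size `r + 1` has a large partition
function. -/
theorem ZZ_large (hl : 0 ≤ lam) (k r : ℕ) (hk : 1 ≤ k) (N : Finset V)
    (hcl : ∀ C ⊆ N, C.card = r + 1 → ¬ ∀ x ∈ C, ∀ y ∈ C, x ≠ y → G.Adj x y)
    (hN : k ^ r ≤ N.card) : (1 + lam) ^ k ≤ ZZ G lam N := by
  obtain ⟨S, hS, hSc, hSi⟩ := indep_of_cliqueFree k hk r N hcl hN
  refine le_trans ?_ (ZZ_mono hl hS)
  have h1 : Ind G S = S.powerset := by
    ext A
    rw [mem_ind, Finset.mem_powerset]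
    exact ⟨fun h => h.1, fun h => ⟨h, fun u hu w hw => hSi u (h hu) w (h hw)⟩⟩
  have h2 := Finset.sum_pow_mul_eq_add_pow lam 1 S
  rw [ZZ, Sm, h1]
  rw [add_comm, ← hSc, ← h2]
  refine le_of_eq (Finset.sum_congr rfl fun A _ => ?_)
  simp

theorem card_small (N : Finset V) : ∀ j : ℕ,
    (N.powerset.filter (fun A => A.card ≤ j)).card ≤ (N.card + 1) ^ j := by
  intro j
  induction j with
  | zero =>
    have : N.powerset.filter (fun A => A.card ≤ 0) ⊆ {∅} := by
      intro A hA
      rw [Finset.mem_filter] at hA
      rw [Finset.mem_singleton]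
      exact Finset.card_eq_zero.1 (Nat.le_zero.1 hA.2)
    have := Finset.card_le_card this
    simpa using this
  | succ j ih =>
    set S := N.powerset.filter (fun A => A.card ≤ j) with hS
    have hsub : N.powerset.filter (fun A => A.card ≤ j + 1) ⊆
        S ∪ N.biUnion (fun a => S.image (insert a)) := by
      intro A hA
      rw [Finset.mem_filter, Finset.mem_powerset] at hA
      rw [Finset.mem_union]
      by_cases h : A.card ≤ j
      · left
        rw [hS, Finset.mem_filter, Finset.mem_powerset]
        exact ⟨hA.1, h⟩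
      · right
        have hne : A.Nonempty := by
          rw [← Finset.card_pos]; omega
        obtain ⟨a, ha⟩ := hne
        rw [Finset.mem_biUnion]
        refine ⟨a, hA.1 ha, ?_⟩
        rw [Finset.mem_image]
        refine ⟨A.erase a, ?_, Finset.insert_erase ha⟩
        rw [hS, Finset.mem_filter, Finset.mem_powerset]
        refine ⟨(Finset.erase_subset _ _).trans hA.1, ?_⟩
        rw [Finset.card_erase_of_mem ha]
        omega
    calc (N.powerset.filter (fun A => A.card ≤ j + 1)).card ≤
        (S ∪ N.biUnion (fun a => S.image (insert a))).card := Finset.card_le_card hsub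
      _ ≤ S.card + (N.biUnion (fun a => S.image (insert a))).card := Finset.card_union_le _ _
      _ ≤ S.card + N.card * S.card := by
          refine Nat.add_le_add_left ?_ _
          exact Finset.card_biUnion_le_card_mul _ _ _ (fun a _ => Finset.card_image_le)
      _ = (N.card + 1) * S.card := by ring
      _ ≤ (N.card + 1) * (N.card + 1) ^ j := Nat.mul_le_mul_left _ ih
      _ = (N.card + 1) ^ (j + 1) := by ring

/-- If the partition function is large, then many vertices are occupied on average. -/
theorem mean_large (hl : 0 ≤ lam) (hl1 : lam ≤ 1) {h0 : ℝ} (j : ℕ) (hj : 2 * h0 ≤ j + 1)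
    (N : Finset V) (hZ : 2 * ((N.card : ℝ) + 1) ^ j ≤ ZZ G lam N) :
    h0 * ZZ G lam N ≤ Sm G lam N (fun A => (A.card : ℝ)) := by
  have h1 : ZZ G lam N = Sm G lam N (fun A => if A.card ≤ j then (1 : ℝ) else 0) +
      Sm G lam N (fun A => if A.card ≤ j then (0 : ℝ) else 1) := by
    rw [ZZ, ← Sm_add]
    refine Sm_congr fun A _ => ?_
    by_cases h : A.card ≤ j
    · simp [h]
    · simp [h]
  have h2 : Sm G lam N (fun A => if A.card ≤ j then (1 : ℝ) else 0) ≤ ((N.card : ℝ) + 1) ^ j := by
    calc Sm G lam N (fun A => if A.card ≤ j then (1 : ℝ) else 0) ≤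
        ∑ A ∈ N.powerset, (if A.card ≤ j then (1 : ℝ) else 0) := by
          rw [Sm]
          refine (Finset.sum_le_sum (g := fun A => if A.card ≤ j then (1 : ℝ) else 0)
            fun A _ => ?_).trans
            (Finset.sum_le_sum_of_subset_of_nonneg (Finset.filter_subset _ _) ?_)
          · have : lam ^ A.card ≤ 1 := pow_le_one₀ hl hl1
            split_ifs
            · linarith
            · simp
          · intro A _ _
            split_ifs <;> norm_num
      _ = ((N.powerset.filter (fun A => A.card ≤ j)).card : ℝ) := by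
          rw [← Finset.sum_filter, Finset.sum_const, nsmul_eq_mul, mul_one]
      _ ≤ ((N.card : ℝ) + 1) ^ j := by exact_mod_cast card_small N j
  have h3 : ((j : ℝ) + 1) * Sm G lam N (fun A => if A.card ≤ j then (0 : ℝ) else 1) ≤
      Sm G lam N (fun A => (A.card : ℝ)) := by
    rw [← Sm_smul]
    refine Sm_mono hl fun A _ => ?_
    split_ifs with h
    · simp
    · push Not at h
      have : j + 1 ≤ A.card := h
      have : ((j : ℝ) + 1) ≤ A.card := by exact_mod_cast this
      linarith
  have h4 : ZZ G lam N / 2 ≤ Sm G lam N (fun A => if A.card ≤ j then (0 : ℝ) else 1) := by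
    linarith
  have hZp := ZZ_pos (G := G) hl N
  have h5 : ((j : ℝ) + 1) * (ZZ G lam N / 2) ≤ Sm G lam N (fun A => (A.card : ℝ)) :=
    (mul_le_mul_of_nonneg_left h4 (by positivity)).trans h3
  have h6 := mul_le_mul_of_nonneg_right hj hZp.le
  linarith

/-- the common neighbours of `W ∪ W'` -/
noncomputable def Cen (G : SimpleGraph V) (W W' : Finset V) : Finset V :=
  Finset.univ.filter (fun v => (∀ x ∈ W, G.Adj v x) ∧ ∀ y ∈ W', G.Adj v y)

theorem av_nb (H A : Finset V) (v : V) : Av G (Nb G H v) A = Nb G (Av G H A) v := by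
  ext x
  rw [mem_Av, mem_Nb, mem_Nb, mem_Av]
  tauto

/-- Counting the vertices with a dense spot among their free neighbours. -/
theorem count (t BB : ℕ) (ht : 1 ≤ t)
    (hCF : ∀ W W' : Finset V, W.card = t → W'.card = t → (∀ x ∈ W, ∀ y ∈ W', G.Adj x y) →
      (Cen G W W').card ≤ t)
    (H U : Finset V) (hU : U ⊆ H) (w : V → ℝ) (hw : ∀ v, 0 ≤ w v) (ρ : ℝ) (hρ : 0 ≤ ρ)
    (hwρ : ∀ v ∈ H, ∀ x ∈ H, w v ≤ ρ * w x) :
    ∑ v ∈ H, w v * (if PP G t (Nb G U v) then 1 else 0) ≤
      (∑ v ∈ H, w v * ∑ u ∈ Nb G H v, (if (u ∈ U ∧ (BB : ℝ) < ((Nb G U u).card : ℝ)) then (1 : ℝ)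
        else 0)) +
      ρ * ((BB : ℝ) ^ t * t * (BB ^ t * t)) * ∑ x ∈ U, w x := by
  set S : V → Finset V := fun x => if (Nb G U x).card ≤ BB then
    (powersetCard t (Nb G U x)).biUnion (fun W' => W'.biUnion (fun y =>
      if (Nb G U y).card ≤ BB then
        (powersetCard t (Nb G U y)).biUnion (fun W =>
          if (∀ x ∈ W, ∀ y ∈ W', G.Adj x y) then Cen G W W' else ∅)
      else ∅)) else ∅ with hS
  have hScard : ∀ x, (S x).card ≤ BB ^ t * t * (BB ^ t * t) := by
    intro x
    rw [hS]
    dsimp only
    split_ifs with h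
    · calc _ ≤ (powersetCard t (Nb G U x)).card * (t * (BB ^ t * t)) := by
            refine Finset.card_biUnion_le_card_mul _ _ _ ?_
            intro W' hW'
            rw [Finset.mem_powersetCard] at hW'
            calc _ ≤ W'.card * (BB ^ t * t) := by
                  refine Finset.card_biUnion_le_card_mul _ _ _ ?_
                  intro y _
                  split_ifs with h2
                  · calc _ ≤ (powersetCard t (Nb G U y)).card * t := by
                          refine Finset.card_biUnion_le_card_mul _ _ _ ?_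
                          intro W hW
                          rw [Finset.mem_powersetCard] at hW
                          split_ifs with h3
                          · exact hCF W W' hW.2 hW'.2 h3
                          · simp
                      _ ≤ BB ^ t * t := by
                          refine Nat.mul_le_mul_right _ ?_
                          rw [Finset.card_powersetCard]
                          exact (Nat.choose_le_pow _ _).trans (Nat.pow_le_pow_left h2 _)
                  · simp
              _ = t * (BB ^ t * t) := by rw [hW'.2]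
        _ ≤ BB ^ t * (t * (BB ^ t * t)) := by
            refine Nat.mul_le_mul_right _ ?_
            rw [Finset.card_powersetCard]
            exact (Nat.choose_le_pow _ _).trans (Nat.pow_le_pow_left h _)
        _ = BB ^ t * t * (BB ^ t * t) := by ring
    · simp
  -- the pointwise bound
  have hpt : ∀ v ∈ H, w v * (if PP G t (Nb G U v) then (1 : ℝ) else 0) ≤
      w v * (∑ u ∈ Nb G H v, (if (u ∈ U ∧ (BB : ℝ) < ((Nb G U u).card : ℝ)) then (1 : ℝ)
        else 0)) + ∑ x ∈ U, (if v ∈ S x then ρ * w x else 0) := by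
    intro v hv
    have hnn : 0 ≤ ∑ x ∈ U, (if v ∈ S x then ρ * w x else 0) :=
      Finset.sum_nonneg fun x _ => by
        split_ifs
        · exact mul_nonneg hρ (hw x)
        · exact le_refl _
    have hnn2 : 0 ≤ ∑ u ∈ Nb G H v, (if (u ∈ U ∧ (BB : ℝ) < ((Nb G U u).card : ℝ)) then (1 : ℝ)
        else 0) := Finset.sum_nonneg fun x _ => by split_ifs <;> norm_num
    by_cases hP : PP G t (Nb G U v)
    · rw [if_pos hP, mul_one]
      by_cases hC1 : ∃ u ∈ Nb G U v, BB < (Nb G U u).card
      · obtain ⟨u, hu, hub⟩ := hC1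
        rw [mem_Nb] at hu
        have h1 : (1 : ℝ) ≤ ∑ u ∈ Nb G H v,
            (if (u ∈ U ∧ (BB : ℝ) < ((Nb G U u).card : ℝ)) then (1 : ℝ) else 0) := by
          have h2 := Finset.single_le_sum (f := fun u =>
            (if (u ∈ U ∧ (BB : ℝ) < ((Nb G U u).card : ℝ)) then (1 : ℝ) else 0))
            (s := Nb G H v) (fun x _ => by split_ifs <;> norm_num)
            (mem_Nb.2 ⟨hU hu.1, hu.2⟩ : u ∈ Nb G H v)
          have h3 : (BB : ℝ) < ((Nb G U u).card : ℝ) := by exact_mod_cast hub
          rw [if_pos ⟨hu.1, h3⟩] at h2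
          exact h2
        have := mul_le_mul_of_nonneg_left h1 (hw v)
        linarith
      · push Not at hC1
        obtain ⟨W, hW, hWc, hlt⟩ := hP
        obtain ⟨W', hW', hW'c⟩ := Finset.exists_subset_card_eq hlt.le
        have hW'1 : ∀ y ∈ W', y ∈ Nb G U v ∧ ∀ x ∈ W, G.Adj y x := by
          intro y hy
          exact Finset.mem_filter.1 (hW' hy)
        obtain ⟨x, hx⟩ : W.Nonempty := by
          rw [← Finset.card_pos]; omega
        obtain ⟨y, hy⟩ : W'.Nonempty := by
          rw [← Finset.card_pos]; omega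
        have hxU := mem_Nb.1 (hW hx)
        have hvS : v ∈ S x := by
          rw [hS]
          dsimp only
          rw [if_pos (hC1 x (hW hx)), Finset.mem_biUnion]
          refine ⟨W', ?_, ?_⟩
          · rw [Finset.mem_powersetCard]
            refine ⟨?_, hW'c⟩
            intro z hz
            have := hW'1 z hz
            exact mem_Nb.2 ⟨(mem_Nb.1 this.1).1, (this.2 x hx).symm⟩
          · rw [Finset.mem_biUnion]
            refine ⟨y, hy, ?_⟩
            rw [if_pos (hC1 y (hW'1 y hy).1), Finset.mem_biUnion]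
            refine ⟨W, ?_, ?_⟩
            · rw [Finset.mem_powersetCard]
              refine ⟨?_, hWc⟩
              intro z hz
              exact mem_Nb.2 ⟨(mem_Nb.1 (hW hz)).1, (hW'1 y hy).2 z hz⟩
            · rw [if_pos (fun a ha b hb => ((hW'1 b hb).2 a ha).symm), Cen, Finset.mem_filter]
              exact ⟨Finset.mem_univ _, fun z hz => (mem_Nb.1 (hW hz)).2,
                fun z hz => (mem_Nb.1 (hW'1 z hz).1).2⟩
        have h1 : ρ * w x ≤ ∑ x ∈ U, (if v ∈ S x then ρ * w x else 0) := by
          have h2 := Finset.single_le_sum (f := fun x => (if v ∈ S x then ρ * w x else 0))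
            (s := U) (fun x _ => by
              split_ifs
              · exact mul_nonneg hρ (hw x)
              · exact le_refl _) hxU.1
          rw [if_pos hvS] at h2
          exact h2
        have h3 := hwρ v hv x (hU hxU.1)
        have h4 := mul_nonneg (hw v) hnn2
        linarith
    · rw [if_neg hP, mul_zero]
      exact add_nonneg (mul_nonneg (hw v) hnn2) hnn
  refine (Finset.sum_le_sum hpt).trans ?_
  rw [Finset.sum_add_distrib]
  refine add_le_add_right ?_ _
  rw [Finset.sum_comm, Finset.mul_sum]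
  refine Finset.sum_le_sum fun x _ => ?_
  rw [← Finset.sum_filter, Finset.sum_const, nsmul_eq_mul]
  have h1 : ((H.filter (fun v => v ∈ S x)).card : ℝ) ≤ (BB : ℝ) ^ t * t * (BB ^ t * t) := by
    have : (H.filter (fun v => v ∈ S x)).card ≤ BB ^ t * t * (BB ^ t * t) := by
      refine (Finset.card_le_card ?_).trans (hScard x)
      intro v hv
      exact (Finset.mem_filter.1 hv).2
    exact_mod_cast this
  calc ((H.filter (fun v => v ∈ S x)).card : ℝ) * (ρ * w x) ≤
      ((BB : ℝ) ^ t * t * (BB ^ t * t)) * (ρ * w x) :=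
        mul_le_mul_of_nonneg_right h1 (mul_nonneg hρ (hw x))
    _ = _ := by ring

end Pool.Agent.Helper953TT
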