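import Mathlib

set_option autoImplicit false

/-!
# The greedy fractional colouring, and linear programming duality
-/

namespace Pool.Agent.Helper953TT

open Finset Classical

set_option linter.unusedSectionVars false

variable {V : Type} [Fintype V]

/-- Play the rates `q H` of the set `H` of living vertices; a vertex dies as soon as it has
received its need. The total time is `T`. -/
theorem greedy_aux (q : Finset V → V → ℝ) (hq : ∀ H, ∀ v ∈ H, 0 < q H v)
    (hq0 : ∀ H, ∀ v, v ∉ H → q H v = 0) :
    ∀ n : ℕ, ∀ A : Finset V, A.card = n → ∀ (r : V → ℝ) (T : ℝ), (∀ v ∈ A, 0 < r v) → 0 ≤ T →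
    ∃ τ : Finset V → ℝ, (∀ H, 0 ≤ τ H) ∧ (∀ H, τ H ≠ 0 → H ⊆ A) ∧ ∑ H, τ H = T ∧
      (∀ v ∈ A, ∑ H, τ H * q H v ≤ r v) ∧
      (∀ v ∈ A, ∑ H, τ H * q H v < r v → ∀ H, τ H ≠ 0 → v ∈ H) := by
  intro n
  induction n using Nat.strong_induction_on with
  | _ n ih =>
    intro A hA r T hr hT
    rcases Finset.eq_empty_or_nonempty A with hAe | hAne
    · subst hAe
      refine ⟨fun H => if H = ∅ then T else 0, ?_, ?_, ?_, ?_, ?_⟩
      · intro H; dsimp only; split_ifs
        · exact hT
        · exact le_refl _
      · intro H hH
        dsimp only at hH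
        by_cases h : H = ∅
        · rw [h]
        · rw [if_neg h] at hH; exact absurd rfl hH
      · rw [Finset.sum_ite_eq' Finset.univ (∅ : Finset V) (fun _ => T)]
        simp
      · intro v hv; exact absurd hv (Finset.notMem_empty _)
      · intro v hv; exact absurd hv (Finset.notMem_empty _)
    · obtain ⟨v0, hv0, hmin⟩ := Finset.exists_min_image A (fun v => r v / q A v) hAne
      set s := r v0 / q A v0 with hs
      have hs0 : 0 < s := div_pos (hr v0 hv0) (hq A v0 hv0)
      have hsq : ∀ v ∈ A, s * q A v ≤ r v := by
        intro v hv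
        have := hmin v hv
        rwa [le_div_iff₀ (hq A v hv)] at this
      by_cases hTs : T ≤ s
      · refine ⟨fun H => if H = A then T else 0, ?_, ?_, ?_, ?_, ?_⟩
        · intro H; dsimp only; split_ifs
          · exact hT
          · exact le_refl _
        · intro H hH
          dsimp only at hH
          by_cases h : H = A
          · rw [h]
          · rw [if_neg h] at hH; exact absurd rfl hH
        · rw [Finset.sum_ite_eq' Finset.univ A (fun _ => T)]
          simp
        · intro v hv
          have : ∑ H, (if H = A then T else 0) * q H v = T * q A v := by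
            rw [Finset.sum_eq_single A]
            · rw [if_pos rfl]
            · intro H _ hne; rw [if_neg hne, zero_mul]
            · intro h; exact absurd (Finset.mem_univ _) h
          rw [this]
          exact (mul_le_mul_of_nonneg_right hTs (hq A v hv).le).trans (hsq v hv)
        · intro v hv _ H hH
          dsimp only at hH
          by_cases h : H = A
          · rw [h]; exact hv
          · rw [if_neg h] at hH; exact absurd rfl hH
      · push Not at hTs
        set r' : V → ℝ := fun v => r v - s * q A v with hr'
        set A' := A.filter (fun v => 0 < r' v) with hA'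
        have hlt : A'.card < n := by
          rw [← hA]
          refine Finset.card_lt_card ?_
          rw [Finset.ssubset_iff_of_subset (Finset.filter_subset _ _)]
          refine ⟨v0, hv0, ?_⟩
          rw [Finset.mem_filter]
          rintro ⟨_, h⟩
          have : r' v0 = 0 := by
            rw [hr']
            dsimp only
            rw [hs, div_mul_cancel₀ _ (hq A v0 hv0).ne', sub_self]
          linarith
        obtain ⟨τ, h1, h2, h3, h4, h5⟩ := ih _ hlt A' rfl r' (T - s)
          (fun v hv => (Finset.mem_filter.1 hv).2) (by linarith)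
        have hsum : ∀ v, ∑ H, (τ H + if H = A then s else 0) * q H v =
            ∑ H, τ H * q H v + s * q A v := by
          intro v
          simp only [add_mul, Finset.sum_add_distrib]
          congr 1
          rw [Finset.sum_eq_single A]
          · rw [if_pos rfl]
          · intro H _ hne; rw [if_neg hne, zero_mul]
          · intro h; exact absurd (Finset.mem_univ _) h
        have hdead : ∀ v ∈ A, v ∉ A' → ∑ H, τ H * q H v = 0 := by
          intro v _ hv
          refine Finset.sum_eq_zero fun H _ => ?_
          by_cases h : τ H = 0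
          · rw [h, zero_mul]
          · rw [hq0 H v (fun hvH => hv (h2 H h hvH)), mul_zero]
        refine ⟨fun H => τ H + if H = A then s else 0, ?_, ?_, ?_, ?_, ?_⟩
        · intro H; dsimp only
          have := h1 H
          split_ifs
          · linarith
          · linarith
        · intro H hH
          dsimp only at hH
          by_cases h : H = A
          · rw [h]
          · rw [if_neg h, add_zero] at hH
            exact (h2 H hH).trans (Finset.filter_subset _ _)
        · rw [Finset.sum_add_distrib, h3, Finset.sum_ite_eq' Finset.univ A (fun _ => s)]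
          simp
        · intro v hv
          rw [hsum]
          by_cases hvA : v ∈ A'
          · have := h4 v hvA
            rw [hr'] at this
            dsimp only at this
            linarith
          · rw [hdead v hv hvA]
            have := hsq v hv
            linarith
        · intro v hv hlt2 H hH
          rw [hsum] at hlt2
          by_cases hvA : v ∈ A'
          · by_cases h : H = A
            · rw [h]; exact hv
            · dsimp only at hH
              rw [if_neg h, add_zero] at hH
              refine h5 v hvA ?_ H hH
              rw [hr']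
              dsimp only
              linarith
          · exfalso
            rw [hdead v hv hvA, zero_add] at hlt2
            refine hvA ?_
            rw [hA', Finset.mem_filter, hr']
            refine ⟨hv, ?_⟩
            dsimp only
            linarith

/-- **Linear programming duality** for fractional colourings. -/
theorem dual (I0 : Finset (Finset V)) {T : ℝ} (hT : 0 < T)
    (h : ∀ w : V → ℝ, (∀ v, 0 ≤ w v) → ∃ I ∈ I0, ∑ v, w v ≤ T * ∑ v ∈ I, w v) :
    ∃ x : Finset V → ℝ, (∀ I, 0 ≤ x I) ∧ (∀ I, x I ≠ 0 → I ∈ I0) ∧
      (∀ v, 1 ≤ ∑ I, if v ∈ I then x I else 0) ∧ ∑ I, x I ≤ T := by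
  set L : (I0 → ℝ) →ₗ[ℝ] (V → ℝ) :=
    { toFun := fun p v => ∑ I : I0, p I * (if v ∈ I.1 then 1 else 0)
      map_add' := by
        intro p p'; ext v
        simp only [Pi.add_apply, add_mul, Finset.sum_add_distrib]
      map_smul' := by
        intro c p; ext v
        simp only [Pi.smul_apply, smul_eq_mul, RingHom.id_apply, Finset.mul_sum, mul_assoc] }
    with hL
  set K : Set (V → ℝ) := L '' stdSimplex ℝ I0 with hK
  have hKc : IsCompact K := (isCompact_stdSimplex (𝕜 := ℝ) I0).image
    (LinearMap.continuous_of_finiteDimensional L)
  have hKconv : Convex ℝ K := (convex_stdSimplex ℝ I0).linear_image L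
  set C : Set (V → ℝ) := {y | ∀ v, 1 / T ≤ y v} with hC
  have hCconv : Convex ℝ C := by
    intro y hy z hz a b ha hb hab v
    have h1 := mul_le_mul_of_nonneg_left (hy v) ha
    have h2 := mul_le_mul_of_nonneg_left (hz v) hb
    simp only [Pi.add_apply, Pi.smul_apply, smul_eq_mul]
    calc 1 / T = a * (1 / T) + b * (1 / T) := by rw [← add_mul, hab, one_mul]
      _ ≤ _ := by linarith
  have hCclosed : IsClosed C := by
    have : C = ⋂ v, {y : V → ℝ | 1 / T ≤ y v} := by
      ext y; simp [hC]
    rw [this]
    exact isClosed_iInter fun v => isClosed_le continuous_const (continuous_apply v)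
  by_cases hdis : Disjoint K C
  · exfalso
    obtain ⟨f, u, s, hfu, hus, hfs⟩ := geometric_hahn_banach_compact_closed hKconv hKc hCconv
      hCclosed hdis
    set w : V → ℝ := fun v => f (Pi.single v 1) with hw
    have hf : ∀ y : V → ℝ, f y = ∑ v, y v * w v := by
      intro y
      have h1 : y = ∑ v, y v • (Pi.single v (1 : ℝ) : V → ℝ) := by
        ext x
        simp [Finset.sum_apply, Pi.single_apply]
      calc f y = f (∑ v, y v • (Pi.single v (1 : ℝ) : V → ℝ)) := by rw [← h1]
        _ = ∑ v, y v * w v := by
          rw [map_sum]
          exact Finset.sum_congr rfl fun v _ => by rw [map_smul, smul_eq_mul]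
    have hw0 : ∀ v, 0 ≤ w v := by
      intro v
      by_contra hneg
      push Not at hneg
      -- move far in the direction of `v`
      set a := (f (fun _ => 1 / T) - s) / (- w v) + 1 with ha
      have hbase : (fun _ => 1 / T : V → ℝ) ∈ C := fun _ => le_refl _
      have hb := hfs _ hbase
      have ha0 : 0 ≤ a := by
        have : 0 < (f (fun _ => 1 / T) - s) / (- w v) := div_pos (by linarith) (by linarith)
        linarith
      have hmem : ((fun _ => 1 / T : V → ℝ) + a • (Pi.single v (1 : ℝ) : V → ℝ)) ∈ C := by
        intro x
        simp only [Pi.add_apply, Pi.smul_apply, smul_eq_mul]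
        have : 0 ≤ (Pi.single v (1 : ℝ) : V → ℝ) x := by
          rw [Pi.single_apply]; split_ifs <;> norm_num
        have := mul_nonneg ha0 this
        linarith
      have h2 := hfs _ hmem
      rw [map_add, map_smul, smul_eq_mul] at h2
      have h3 : a * w v = -(f (fun _ => 1 / T) - s) + w v := by
        rw [ha]
        have : w v ≠ 0 := hneg.ne
        field_simp
      change s < f (fun _ => 1 / T) + a * w v at h2
      rw [h3] at h2
      linarith
    obtain ⟨I, hI, hIw⟩ := h w hw0
    have h1 := hfu (L (Pi.single ⟨I, hI⟩ 1)) ⟨_, single_mem_stdSimplex ℝ (⟨I, hI⟩ : I0), rfl⟩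
    have h2 := hfs (fun _ => 1 / T) (fun _ => le_refl _)
    rw [hf] at h1 h2
    have h3 : ∑ v, (L (Pi.single ⟨I, hI⟩ 1)) v * w v = ∑ v ∈ I, w v := by
      have h4 : ∀ v, (L (Pi.single ⟨I, hI⟩ 1)) v = if v ∈ I then 1 else 0 := by
        intro v
        change ∑ J : I0, (Pi.single (⟨I, hI⟩ : I0) (1 : ℝ) : I0 → ℝ) J *
          (if v ∈ J.1 then 1 else 0) = _
        rw [Finset.sum_eq_single (⟨I, hI⟩ : I0)]
        · rw [Pi.single_eq_same, one_mul]
        · intro J _ hJ
          rw [Pi.single_eq_of_ne hJ, zero_mul]
        · intro hh; exact absurd (Finset.mem_univ _) hh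
      simp only [h4]
      rw [← Finset.sum_filter_add_sum_filter_not Finset.univ (fun v => v ∈ I)]
      have e1 : ∑ v ∈ Finset.univ.filter (fun v => ¬ v ∈ I), (if v ∈ I then (1 : ℝ) else 0) * w v
          = 0 := by
        refine Finset.sum_eq_zero fun v hv => ?_
        rw [if_neg (Finset.mem_filter.1 hv).2, zero_mul]
      rw [e1, add_zero]
      have e2 : Finset.univ.filter (fun v => v ∈ I) = I := by ext v; simp
      rw [e2]
      exact Finset.sum_congr rfl fun v hv => by rw [if_pos hv, one_mul]
    rw [h3] at h1
    rw [← Finset.mul_sum] at h2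
    have h5 : (∑ v, w v) ≤ T * u := hIw.trans (mul_le_mul_of_nonneg_left h1.le hT.le)
    have h6 : s * T < ∑ v, w v := by
      rw [one_div, ← div_eq_inv_mul, lt_div_iff₀ hT] at h2
      exact h2
    nlinarith
  · rw [Set.not_disjoint_iff] at hdis
    obtain ⟨y, ⟨p, hp, hpy⟩, hyC⟩ := hdis
    refine ⟨fun I => if hI : I ∈ I0 then T * p ⟨I, hI⟩ else 0, ?_, ?_, ?_, ?_⟩
    · intro I
      dsimp only
      split_ifs with hI
      · exact mul_nonneg hT.le (hp.1 _)
      · exact le_refl _
    · intro I hI
      by_contra h2
      dsimp only at hI
      rw [dif_neg h2] at hI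
      exact hI rfl
    · intro v
      have h1 := hyC v
      rw [← hpy] at h1
      change 1 / T ≤ ∑ I : I0, p I * (if v ∈ I.1 then 1 else 0) at h1
      have h2 : ∑ I, (if v ∈ I then (if hI : I ∈ I0 then T * p ⟨I, hI⟩ else 0) else 0) =
          T * ∑ I : I0, p I * (if v ∈ I.1 then 1 else 0) := by
        rw [Finset.mul_sum]
        rw [← Finset.sum_subset (Finset.subset_univ I0)]
        · rw [← Finset.sum_coe_sort I0]
          refine Finset.sum_congr rfl fun I _ => ?_
          by_cases hv : v ∈ I.1
          · rw [if_pos hv, dif_pos I.2, if_pos hv]; ring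
          · rw [if_neg hv, if_neg hv]; ring
        · intro I _ hI
          rw [dif_neg hI]; simp
      rw [h2]
      rw [div_le_iff₀ hT] at h1
      linarith
    · have h2 : ∑ I, (if hI : I ∈ I0 then T * p ⟨I, hI⟩ else 0) = T * ∑ I : I0, p I := by
        rw [Finset.mul_sum]
        rw [← Finset.sum_subset (Finset.subset_univ I0)]
        · rw [← Finset.sum_coe_sort I0]
          refine Finset.sum_congr rfl fun I _ => ?_
          rw [dif_pos I.2]
        · intro I _ hI
          rw [dif_neg hI]
      rw [h2, hp.2, mul_one]

end Pool.Agent.Helper953TT
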