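import Mathlib
import Pool.Agent.Helper953_TT.Big
import Pool.Agent.Helper953_TT.Greedy

set_option autoImplicit false

/-!
# Random independent sets for slowly varying weights
-/

namespace Pool.Agent.Helper953TT

open Finset Classical Pool.Agent.TH855

set_option linter.unusedSectionVars false

variable {V : Type} [Fintype V]

/-- the probability that `v` is occupied -/
noncomputable def qq (G : SimpleGraph V) (lam : ℝ) (H : Finset V) (v : V) : ℝ :=
  Sm G lam H (fun A => if v ∈ A then (1 : ℝ) else 0) / ZZ G lam H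

/-- the probability that the free neighbours of `v` contain a dense spot -/
noncomputable def pr (G : SimpleGraph V) (lam : ℝ) (t : ℕ) (H : Finset V) (v : V) : ℝ :=
  Sm G lam H (fun A => if PP G t (Av G (Nb G H v) A) then (1 : ℝ) else 0) / ZZ G lam H

variable {G : SimpleGraph V} {lam : ℝ}

theorem qq_pos (hl : 0 < lam) {H : Finset V} {v : V} (hv : v ∈ H) : 0 < qq G lam H v := by
  rw [qq, sm_mem hv]
  exact div_pos (mul_pos hl (ZZ_pos hl.le _)) (ZZ_pos hl.le _)

theorem qq_zero {H : Finset V} {v : V} (hv : v ∉ H) : qq G lam H v = 0 := by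
  rw [qq, Sm, Finset.sum_eq_zero, zero_div]
  intro A hA
  rw [mem_ind] at hA
  rw [if_neg (fun h => hv (hA.1 h)), mul_zero]

theorem qq_nonneg (hl : 0 < lam) (H : Finset V) (v : V) : 0 ≤ qq G lam H v := by
  by_cases hv : v ∈ H
  · exact (qq_pos hl hv).le
  · rw [qq_zero hv]

theorem pr_nonneg (hl : 0 < lam) (t : ℕ) (H : Finset V) (v : V) : 0 ≤ pr G lam t H v := by
  rw [pr]
  refine div_nonneg (Sm_nonneg hl.le fun A _ => ?_) (ZZ_pos hl.le _).le
  split_ifs <;> norm_num

theorem local_q (hl : 0 < lam) {t : ℕ} {c h0 M' : ℝ} (hc0 : 0 ≤ c) (hM : 0 ≤ M')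
    {H : Finset V} {v : V} (hv : v ∈ H)
    (hinner : ∀ N ⊆ Nb G H v, h0 * (lam + ZZ G lam N) ≤ lam * M' + Sm G lam N (FF G t c N)) :
    h0 ≤ (∑ u ∈ Nb G H v, qq G lam H u) + c * pr G lam t H v + M' * qq G lam H v := by
  have h1 := local_ineq hl hc0 hM hv hinner
  have hZ := ZZ_pos (G := G) hl.le H
  have e : (∑ u ∈ Nb G H v, qq G lam H u) + c * pr G lam t H v + M' * qq G lam H v =
      ((∑ u ∈ Nb G H v, Sm G lam H (fun A => if u ∈ A then (1 : ℝ) else 0)) +
      c * Sm G lam H (fun A => if PP G t (Av G (Nb G H v) A) then (1 : ℝ) else 0) +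
      M' * Sm G lam H (fun A => if v ∈ A then (1 : ℝ) else 0)) / ZZ G lam H := by
    simp only [qq, pr]
    rw [← Finset.sum_div]
    ring
  rw [e, le_div_iff₀ hZ]
  exact h1

theorem count_q (hl : 0 < lam) (hl1 : lam ≤ 1) (t BB : ℕ) (ht : 1 ≤ t) {Zb : ℝ} (hZb : 0 < Zb)
    (Δ : ℕ) (hdeg : ∀ v : V, (Nb G Finset.univ v).card ≤ Δ)
    (hCF : ∀ W W' : Finset V, W.card = t → W'.card = t → (∀ x ∈ W, ∀ y ∈ W', G.Adj x y) →
      (Cen G W W').card ≤ t)
    (hbig : ∀ N : Finset V, (BB : ℝ) < (N.card : ℝ) → Zb ≤ ZZ G lam N)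
    (H : Finset V) (w : V → ℝ) (hw : ∀ v, 0 ≤ w v) (ρ : ℝ) (hρ : 0 ≤ ρ)
    (hwρ : ∀ v ∈ H, ∀ x ∈ H, w v ≤ ρ * w x) :
    ∑ v ∈ H, w v * pr G lam t H v ≤ (Δ : ℝ) / Zb * ∑ v ∈ H, w v +
      ρ * ((BB : ℝ) ^ t * t * (BB ^ t * t)) * (2 / lam) * ∑ x ∈ H, w x * qq G lam H x := by
  have hZ := ZZ_pos (G := G) hl.le H
  set K : ℝ := (BB : ℝ) ^ t * t * (BB ^ t * t) with hK
  have hK0 : 0 ≤ K := by rw [hK]; positivity
  have h1 : Sm G lam H (fun A => ∑ v ∈ H, w v *
      (if PP G t (Av G (Nb G H v) A) then (1 : ℝ) else 0)) ≤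
      Sm G lam H (fun A => (∑ v ∈ H, w v * ∑ u ∈ Nb G H v,
        (if (u ∈ Av G H A ∧ (BB : ℝ) < ((Nb G (Av G H A) u).card : ℝ)) then (1 : ℝ) else 0)) +
        ρ * K * ∑ x ∈ H, w x * (if x ∈ Av G H A then (1 : ℝ) else 0)) := by
    refine Sm_mono hl.le fun A _ => ?_
    have h2 := count (G := G) t BB ht hCF H (Av G H A) (Finset.filter_subset _ _) w hw ρ hρ hwρ
    have e1 : ∑ x ∈ Av G H A, w x = ∑ x ∈ H, w x * (if x ∈ Av G H A then (1 : ℝ) else 0) := by
      simp only [mul_ite, mul_one, mul_zero]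
      rw [← Finset.sum_filter]
      refine Finset.sum_congr ?_ fun _ _ => rfl
      ext x
      rw [Finset.mem_filter]
      exact ⟨fun h => ⟨(mem_Av.1 h).1, h⟩, fun h => h.2⟩
    rw [e1] at h2
    refine le_trans (le_of_eq ?_) h2
    refine Finset.sum_congr rfl fun v _ => ?_
    rw [av_nb]
  rw [Sm_add] at h1
  have e2 : Sm G lam H (fun A => ∑ v ∈ H, w v *
      (if PP G t (Av G (Nb G H v) A) then (1 : ℝ) else 0)) =
      ZZ G lam H * ∑ v ∈ H, w v * pr G lam t H v := by
    rw [Sm_sum, Finset.mul_sum]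
    refine Finset.sum_congr rfl fun v _ => ?_
    rw [Sm_smul, pr]
    field_simp
  have e3 : Sm G lam H (fun A => ∑ v ∈ H, w v * ∑ u ∈ Nb G H v,
        (if (u ∈ Av G H A ∧ (BB : ℝ) < ((Nb G (Av G H A) u).card : ℝ)) then (1 : ℝ) else 0)) ≤
      ZZ G lam H * ((Δ : ℝ) / Zb * ∑ v ∈ H, w v) := by
    rw [Sm_sum, Finset.mul_sum, Finset.mul_sum]
    refine Finset.sum_le_sum fun v hv => ?_
    rw [Sm_smul, Sm_sum]
    have h3 : ∑ u ∈ Nb G H v, Sm G lam H (fun A =>
        (if (u ∈ Av G H A ∧ (BB : ℝ) < ((Nb G (Av G H A) u).card : ℝ)) then (1 : ℝ) else 0)) ≤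
        ∑ _u ∈ Nb G H v, 1 / Zb * ZZ G lam H := by
      refine Finset.sum_le_sum fun u hu => ?_
      exact bad_degree hl (by positivity) hZb (mem_Nb.1 hu).1 (fun N _ hN => hbig N hN)
    rw [Finset.sum_const, nsmul_eq_mul] at h3
    have h4 : ((Nb G H v).card : ℝ) ≤ Δ := by
      have : (Nb G H v).card ≤ Δ :=
        (Finset.card_le_card (Finset.filter_subset_filter _ (Finset.subset_univ _))).trans (hdeg v)
      exact_mod_cast this
    have h5 : ((Nb G H v).card : ℝ) * (1 / Zb * ZZ G lam H) ≤ Δ * (1 / Zb * ZZ G lam H) :=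
      mul_le_mul_of_nonneg_right h4 (by positivity)
    calc w v * _ ≤ w v * (Δ * (1 / Zb * ZZ G lam H)) :=
          mul_le_mul_of_nonneg_left (h3.trans h5) (hw v)
      _ = ZZ G lam H * ((Δ : ℝ) / Zb * w v) := by ring
  have e4 : Sm G lam H (fun A => ρ * K * ∑ x ∈ H, w x *
      (if x ∈ Av G H A then (1 : ℝ) else 0)) ≤
      ZZ G lam H * (ρ * K * (2 / lam) * ∑ x ∈ H, w x * qq G lam H x) := by
    rw [Sm_smul, Sm_sum]
    have h3 : ∑ x ∈ H, Sm G lam H (fun A => w x * (if x ∈ Av G H A then (1 : ℝ) else 0)) ≤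
        ∑ x ∈ H, w x * (2 / lam * (qq G lam H x * ZZ G lam H)) := by
      refine Finset.sum_le_sum fun x hx => ?_
      rw [Sm_smul]
      refine mul_le_mul_of_nonneg_left ?_ (hw x)
      have h4 := free_le (G := G) hl hl1 hx
      have h5 : qq G lam H x * ZZ G lam H = Sm G lam H (fun A => if x ∈ A then (1 : ℝ) else 0) := by
        rw [qq]; field_simp
      rw [h5]
      exact h4
    have h6 := mul_le_mul_of_nonneg_left h3 (mul_nonneg hρ hK0)
    refine h6.trans (le_of_eq ?_)
    rw [Finset.mul_sum, Finset.mul_sum, Finset.mul_sum]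
    exact Finset.sum_congr rfl fun x _ => by ring
  rw [e2] at h1
  have h7 : ZZ G lam H * ∑ v ∈ H, w v * pr G lam t H v ≤
      ZZ G lam H * ((Δ : ℝ) / Zb * ∑ v ∈ H, w v +
        ρ * K * (2 / lam) * ∑ x ∈ H, w x * qq G lam H x) := by
    rw [mul_add]
    linarith
  exact le_of_mul_le_mul_left h7 hZ

/-- `π` is a probability distribution on the independent subsets of `N`. -/
def IsDist (G : SimpleGraph V) (N : Finset V) (π : Finset V → ℝ) : Prop :=
  (∀ A, 0 ≤ π A) ∧ (∀ A, π A ≠ 0 → A ∈ Ind G N) ∧ ∑ A, π A = 1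

/-- the probability that `v` is in the random set -/
noncomputable def mg (π : Finset V → ℝ) (v : V) : ℝ := ∑ A, π A * (if v ∈ A then 1 else 0)

theorem block (hl : 0 < lam) (t : ℕ) {c h0 M' T η κ : ℝ} (hc0 : 0 ≤ c) (hM : 0 ≤ M')
    (hT : 0 < T) (hη : 0 ≤ η) (hκ : 0 ≤ κ) (Δ : ℕ) (b : Finset V)
    (hdeg : ∀ v : V, (Nb G Finset.univ v).card ≤ Δ) (w : V → ℝ) (hw : ∀ v, 0 ≤ w v)
    (hLI : ∀ H ⊆ b, ∀ v ∈ H,
      h0 ≤ (∑ u ∈ Nb G H v, qq G lam H u) + c * pr G lam t H v + M' * qq G lam H v)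
    (hcnt : ∀ H ⊆ b, ∑ v ∈ H, w v * pr G lam t H v ≤
      η * ∑ v ∈ H, w v + κ * ∑ x ∈ H, w x * qq G lam H x)
    {δ : ℝ} (hgap : c * (T * η + κ) ≤ δ * (h0 * T - Δ - M'))
    (hgap0 : 0 < h0 * T - Δ - M') :
    ∃ π : Finset V → ℝ, IsDist G b π ∧ (∀ v, mg π v ≤ 1 / T) ∧
      (1 - δ) / T * ∑ v ∈ b, w v ≤ ∑ v ∈ b, w v * mg π v := by
  obtain ⟨τ, h1, h2, h3, h4, h5⟩ := greedy_aux (qq G lam) (fun H v hv => qq_pos hl hv)
    (fun H v hv => qq_zero hv) b.card b rfl (fun _ => 1) T (fun _ _ => one_pos) hT.le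
  set cv : V → ℝ := fun v => ∑ H, τ H * qq G lam H v with hcv
  have hcv0 : ∀ v, 0 ≤ cv v := fun v =>
    Finset.sum_nonneg fun H _ => mul_nonneg (h1 H) (qq_nonneg hl H v)
  have hcv1 : ∀ v, cv v ≤ 1 := by
    intro v
    by_cases hv : v ∈ b
    · exact h4 v hv
    · have : cv v = 0 := by
        rw [hcv]
        refine Finset.sum_eq_zero fun H _ => ?_
        by_cases h : τ H = 0
        · rw [h, zero_mul]
        · rw [qq_zero (fun hvH => hv (h2 H h hvH)), mul_zero]
      rw [this]; norm_num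
  -- the expected time in which `v` sees a dense spot
  set X : V → ℝ := fun v => ∑ H, τ H * (if v ∈ H then pr G lam t H v else 0) with hX
  have hX0 : ∀ v, 0 ≤ X v := fun v => Finset.sum_nonneg fun H _ => by
    refine mul_nonneg (h1 H) ?_
    split_ifs
    · exact pr_nonneg hl t H v
    · exact le_refl _
  -- the vertices which survive
  have hlive : ∀ v ∈ b, cv v < 1 → h0 * T - Δ - M' ≤ c * X v := by
    intro v hv hlt
    have hmem := h5 v hv hlt
    have e1 : h0 * T ≤ ∑ H, τ H * ((∑ u ∈ Nb G H v, qq G lam H u) + c * pr G lam t H v +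
        M' * qq G lam H v) := by
      rw [← h3, Finset.mul_sum]
      refine Finset.sum_le_sum fun H _ => ?_
      by_cases h : τ H = 0
      · rw [h]; simp
      · rw [mul_comm]
        exact mul_le_mul_of_nonneg_left (hLI H (h2 H h) v (hmem H h)) (h1 H)
    have e2 : ∑ H, τ H * ((∑ u ∈ Nb G H v, qq G lam H u) + c * pr G lam t H v +
        M' * qq G lam H v) ≤ (∑ u ∈ Nb G Finset.univ v, cv u) + c * X v + M' * cv v := by
      have e3 : ∀ H, τ H * ((∑ u ∈ Nb G H v, qq G lam H u) + c * pr G lam t H v +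
          M' * qq G lam H v) ≤ (∑ u ∈ Nb G Finset.univ v, τ H * qq G lam H u) +
          c * (τ H * (if v ∈ H then pr G lam t H v else 0)) + M' * (τ H * qq G lam H v) := by
        intro H
        by_cases h : τ H = 0
        · rw [h]; simp
        · rw [if_pos (hmem H h)]
          have e4 : ∑ u ∈ Nb G H v, qq G lam H u ≤ ∑ u ∈ Nb G Finset.univ v, qq G lam H u :=
            Finset.sum_le_sum_of_subset_of_nonneg
              (Finset.filter_subset_filter _ (Finset.subset_univ _))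
              (fun u _ _ => qq_nonneg hl H u)
          rw [← Finset.mul_sum]
          have := mul_le_mul_of_nonneg_left e4 (h1 H)
          linarith
      refine (Finset.sum_le_sum fun H _ => e3 H).trans (le_of_eq ?_)
      rw [Finset.sum_add_distrib, Finset.sum_add_distrib, Finset.sum_comm, ← Finset.mul_sum,
        ← Finset.mul_sum]
    have e5 : ∑ u ∈ Nb G Finset.univ v, cv u ≤ Δ := by
      calc ∑ u ∈ Nb G Finset.univ v, cv u ≤ ∑ _u ∈ Nb G Finset.univ v, (1 : ℝ) :=
            Finset.sum_le_sum fun u _ => hcv1 u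
        _ = ((Nb G Finset.univ v).card : ℝ) := by simp
        _ ≤ Δ := by exact_mod_cast hdeg v
    have e6 : M' * cv v ≤ M' * 1 := mul_le_mul_of_nonneg_left (hcv1 v) hM
    linarith
  have hXsum : ∑ v ∈ b, w v * X v ≤ (T * η + κ) * ∑ v ∈ b, w v := by
    have e1 : ∑ v ∈ b, w v * X v =
        ∑ H, τ H * ∑ v ∈ b, w v * (if v ∈ H then pr G lam t H v else 0) := by
      simp only [hX, Finset.mul_sum]
      rw [Finset.sum_comm]
      exact Finset.sum_congr rfl fun H _ => Finset.sum_congr rfl fun v _ => by ring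
    have e2 : ∀ H, τ H * ∑ v ∈ b, w v * (if v ∈ H then pr G lam t H v else 0) ≤
        τ H * (η * ∑ v ∈ b, w v) + κ * ∑ x ∈ b, w x * (τ H * qq G lam H x) := by
      intro H
      by_cases h : τ H = 0
      · rw [h]; simp
      · have hHb := h2 H h
        have e3 : ∑ v ∈ b, w v * (if v ∈ H then pr G lam t H v else 0) =
            ∑ v ∈ H, w v * pr G lam t H v := by
          rw [← Finset.sum_subset hHb]
          · exact Finset.sum_congr rfl fun v hv => by rw [if_pos hv]
          · intro v _ hv; rw [if_neg hv, mul_zero]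
        have e4 := hcnt H hHb
        have e5 : ∑ v ∈ H, w v ≤ ∑ v ∈ b, w v :=
          Finset.sum_le_sum_of_subset_of_nonneg hHb (fun v _ _ => hw v)
        have e6 : ∑ x ∈ H, w x * qq G lam H x ≤ ∑ x ∈ b, w x * qq G lam H x :=
          Finset.sum_le_sum_of_subset_of_nonneg hHb
            (fun v _ _ => mul_nonneg (hw v) (qq_nonneg hl H v))
        rw [e3]
        have e7 : ∑ v ∈ H, w v * pr G lam t H v ≤
            η * ∑ v ∈ b, w v + κ * ∑ x ∈ b, w x * qq G lam H x := by
          have a1 := mul_le_mul_of_nonneg_left e5 hη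
          have a2 := mul_le_mul_of_nonneg_left e6 hκ
          linarith
        have e8 := mul_le_mul_of_nonneg_left e7 (h1 H)
        refine e8.trans (le_of_eq ?_)
        rw [mul_add]
        congr 1
        rw [Finset.mul_sum, Finset.mul_sum, Finset.mul_sum]
        exact Finset.sum_congr rfl fun x _ => by ring
    rw [e1]
    refine (Finset.sum_le_sum fun H _ => e2 H).trans ?_
    rw [Finset.sum_add_distrib, ← Finset.sum_mul, h3, ← Finset.mul_sum, Finset.sum_comm]
    have e9 : ∑ x ∈ b, ∑ H, w x * (τ H * qq G lam H x) ≤ ∑ x ∈ b, w x := by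
      refine Finset.sum_le_sum fun x _ => ?_
      rw [← Finset.mul_sum]
      have := mul_le_mul_of_nonneg_left (hcv1 x) (hw x)
      rw [hcv] at this
      dsimp only at this
      linarith
    have := mul_le_mul_of_nonneg_left e9 hκ
    linarith
  -- the weight of the survivors is small
  have hsurv : ∑ v ∈ b, w v * (1 - cv v) ≤ δ * ∑ v ∈ b, w v := by
    have e1 : ∀ v ∈ b, (h0 * T - Δ - M') * (w v * (1 - cv v)) ≤ c * (w v * X v) := by
      intro v hv
      by_cases h : cv v < 1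
      · have a1 := hlive v hv h
        have a2 : 1 - cv v ≤ 1 := by linarith [hcv0 v]
        have a3 : (h0 * T - Δ - M') * (1 - cv v) ≤ (h0 * T - Δ - M') * 1 :=
          mul_le_mul_of_nonneg_left a2 hgap0.le
        have a4 := mul_le_mul_of_nonneg_left (a3.trans ((mul_one _).le.trans a1)) (hw v)
        calc _ = w v * ((h0 * T - Δ - M') * (1 - cv v)) := by ring
          _ ≤ w v * (c * X v) := a4
          _ = _ := by ring
      · have : 1 - cv v = 0 := by linarith [hcv1 v]
        rw [this, mul_zero, mul_zero]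
        exact mul_nonneg hc0 (mul_nonneg (hw v) (hX0 v))
    have e2 := Finset.sum_le_sum e1
    rw [← Finset.mul_sum, ← Finset.mul_sum] at e2
    have e3 := mul_le_mul_of_nonneg_left hXsum hc0
    have hwb : 0 ≤ ∑ v ∈ b, w v := Finset.sum_nonneg fun v _ => hw v
    have e4 := mul_le_mul_of_nonneg_right hgap hwb
    have e5 : (h0 * T - Δ - M') * ∑ v ∈ b, w v * (1 - cv v) ≤
        (h0 * T - Δ - M') * (δ * ∑ v ∈ b, w v) := by
      calc _ ≤ c * ((T * η + κ) * ∑ v ∈ b, w v) := e2.trans e3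
        _ = c * (T * η + κ) * ∑ v ∈ b, w v := by ring
        _ ≤ δ * (h0 * T - Δ - M') * ∑ v ∈ b, w v := e4
        _ = _ := by ring
    exact le_of_mul_le_mul_left e5 hgap0
  -- the distribution
  have hInd : ∀ H, ∑ A, (if A ∈ Ind G H then lam ^ A.card / ZZ G lam H else 0) = 1 := by
    intro H
    rw [← Finset.sum_filter]
    have : Finset.univ.filter (fun A => A ∈ Ind G H) = Ind G H := by ext A; simp
    rw [this, ← Finset.sum_div]
    have h : ∑ A ∈ Ind G H, lam ^ A.card = ZZ G lam H := by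
      rw [ZZ, Sm]; simp
    rw [h, div_self (ZZ_pos hl.le H).ne']
  have hq : ∀ H v, ∑ A, (if A ∈ Ind G H then lam ^ A.card / ZZ G lam H else 0) *
      (if v ∈ A then 1 else 0) = qq G lam H v := by
    intro H v
    rw [qq, Sm, Finset.sum_div]
    rw [← Finset.sum_subset (Finset.subset_univ (Ind G H))]
    · exact Finset.sum_congr rfl fun A hA => by rw [if_pos hA]; ring
    · intro A _ hA
      rw [if_neg hA, zero_mul]
  set π : Finset V → ℝ := fun A => ∑ H, τ H / T *
    (if A ∈ Ind G H then lam ^ A.card / ZZ G lam H else 0) with hπ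
  have hmg : ∀ v, mg π v = cv v / T := by
    intro v
    rw [mg, hπ, hcv]
    dsimp only
    simp only [Finset.sum_mul]
    rw [Finset.sum_comm, Finset.sum_div]
    refine Finset.sum_congr rfl fun H _ => ?_
    have : ∑ A, τ H / T * (if A ∈ Ind G H then lam ^ A.card / ZZ G lam H else 0) *
        (if v ∈ A then (1 : ℝ) else 0) = τ H / T * qq G lam H v := by
      rw [← hq H v, Finset.mul_sum]
      exact Finset.sum_congr rfl fun A _ => by ring
    rw [this]; ring
  refine ⟨π, ⟨?_, ?_, ?_⟩, ?_, ?_⟩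
  · intro A
    refine Finset.sum_nonneg fun H _ => mul_nonneg (div_nonneg (h1 H) hT.le) ?_
    split_ifs
    · exact div_nonneg (by positivity) (ZZ_pos hl.le H).le
    · exact le_refl _
  · intro A hA
    rw [hπ] at hA
    dsimp only at hA
    obtain ⟨H, _, hH⟩ := Finset.exists_ne_zero_of_sum_ne_zero hA
    have a1 : τ H ≠ 0 := by
      intro h; rw [h] at hH; simp at hH
    have a2 : A ∈ Ind G H := by
      by_contra h; rw [if_neg h] at hH; simp at hH
    exact ind_mono (h2 H a1) a2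
  · rw [hπ]
    dsimp only
    rw [Finset.sum_comm]
    have : ∀ H, ∑ A, τ H / T * (if A ∈ Ind G H then lam ^ A.card / ZZ G lam H else 0) =
        τ H / T := by
      intro H
      rw [← Finset.mul_sum, hInd, mul_one]
    simp only [this]
    rw [← Finset.sum_div, h3, div_self hT.ne']
  · intro v
    rw [hmg]
    exact div_le_div_of_nonneg_right (hcv1 v) hT.le
  · have e1 : ∑ v ∈ b, w v * mg π v = (∑ v ∈ b, w v * cv v) / T := by
      rw [Finset.sum_div]
      exact Finset.sum_congr rfl fun v _ => by rw [hmg]; ring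
    have e2 : ∑ v ∈ b, w v * (1 - cv v) = ∑ v ∈ b, w v - ∑ v ∈ b, w v * cv v := by
      rw [← Finset.sum_sub_distrib]
      exact Finset.sum_congr rfl fun v _ => by ring
    rw [e1, div_mul_eq_mul_div]
    refine div_le_div_of_nonneg_right ?_ hT.le
    rw [e2] at hsurv
    linarith

end Pool.Agent.Helper953TT
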