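import Mathlib
import Pool.Agent.Helper953_TT.Block

set_option autoImplicit false

/-!
# Arbitrary weights: splitting into blocks of comparable weights
-/

namespace Pool.Agent.Helper953TT

open Finset Classical Pool.Agent.TH855

set_option linter.unusedSectionVars false

variable {V : Type} [Fintype V] {G : SimpleGraph V}

theorem push (f : Finset V → Finset V → Finset V) (p₁ p₂ : Finset V → ℝ) (g : Finset V → ℝ) :
    ∑ S, (∑ A, ∑ B, if f A B = S then p₁ A * p₂ B else 0) * g S =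
      ∑ A, ∑ B, p₁ A * p₂ B * g (f A B) := by
  simp only [Finset.sum_mul]
  rw [Finset.sum_comm]
  refine Finset.sum_congr rfl fun A _ => ?_
  rw [Finset.sum_comm]
  refine Finset.sum_congr rfl fun B _ => ?_
  rw [Finset.sum_eq_single (f A B)]
  · rw [if_pos rfl]
  · intro S _ hS
    rw [if_neg (fun h => hS h.symm), zero_mul]
  · intro h; exact absurd (Finset.mem_univ _) h

theorem mg_nonneg {N : Finset V} {π : Finset V → ℝ} (h : IsDist G N π) (v : V) : 0 ≤ mg π v :=
  Finset.sum_nonneg fun A _ => mul_nonneg (h.1 A) (by split_ifs <;> norm_num)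

theorem mg_zero {N : Finset V} {π : Finset V → ℝ} (h : IsDist G N π) {v : V} (hv : v ∉ N) :
    mg π v = 0 := by
  rw [mg]
  refine Finset.sum_eq_zero fun A _ => ?_
  by_cases hA : π A = 0
  · rw [hA, zero_mul]
  · rw [if_neg (fun hvA => hv ((mem_ind.1 (h.2.1 A hA)).1 hvA)), mul_zero]

/-- Combine two independent random independent sets; the first has priority. -/
theorem combine {N₁ N₂ : Finset V} (hd : Disjoint N₁ N₂) {p₁ p₂ : Finset V → ℝ}
    (h₁ : IsDist G N₁ p₁) (h₂ : IsDist G N₂ p₂) :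
    ∃ π : Finset V → ℝ, IsDist G (N₁ ∪ N₂) π ∧ (∀ v ∈ N₁, mg π v = mg p₁ v) ∧
      (∀ v ∈ N₂, mg π v ≤ mg p₂ v) ∧
      (∀ v ∈ N₂, mg p₂ v - mg p₂ v * ∑ u ∈ Nb G N₁ v, mg p₁ u ≤ mg π v) := by
  set f : Finset V → Finset V → Finset V := fun A B => A ∪ Av G B A with hf
  have hsub1 : ∀ A, p₁ A ≠ 0 → A ⊆ N₁ := fun A h => (mem_ind.1 (h₁.2.1 A h)).1
  have hsub2 : ∀ A, p₂ A ≠ 0 → A ⊆ N₂ := fun A h => (mem_ind.1 (h₂.2.1 A h)).1
  refine ⟨fun S => ∑ A, ∑ B, if f A B = S then p₁ A * p₂ B else 0, ⟨?_, ?_, ?_⟩, ?_, ?_, ?_⟩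
  · intro S
    refine Finset.sum_nonneg fun A _ => Finset.sum_nonneg fun B _ => ?_
    split_ifs
    · exact mul_nonneg (h₁.1 A) (h₂.1 B)
    · exact le_refl _
  · intro S hS
    dsimp only at hS
    obtain ⟨A, _, hA⟩ := Finset.exists_ne_zero_of_sum_ne_zero hS
    obtain ⟨B, _, hB⟩ := Finset.exists_ne_zero_of_sum_ne_zero hA
    have hfS : f A B = S := by
      by_contra h; rw [if_neg h] at hB; exact hB rfl
    rw [if_pos hfS] at hB
    have hA1 := mem_ind.1 (h₁.2.1 A (left_ne_zero_of_mul hB))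
    have hB1 := mem_ind.1 (h₂.2.1 B (right_ne_zero_of_mul hB))
    rw [← hfS, hf, mem_ind]
    dsimp only
    refine ⟨Finset.union_subset_union hA1.1 ((Finset.filter_subset _ _).trans hB1.1), ?_⟩
    intro a ha b hb
    rcases Finset.mem_union.1 ha with ha | ha <;> rcases Finset.mem_union.1 hb with hb | hb
    · exact hA1.2 a ha b hb
    · exact fun h => (mem_Av.1 hb).2 a ha h.symm
    · exact (mem_Av.1 ha).2 b hb
    · exact hB1.2 a (mem_Av.1 ha).1 b (mem_Av.1 hb).1
  · have := push f p₁ p₂ (fun _ => 1)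
    simp only [mul_one] at this
    rw [this]
    have h : ∀ A, ∑ B, p₁ A * p₂ B = p₁ A := by
      intro A
      rw [← Finset.mul_sum, h₂.2.2, mul_one]
    simp only [h]
    exact h₁.2.2
  · intro v hv
    rw [mg, push f p₁ p₂ (fun S => if v ∈ S then 1 else 0), mg]
    refine Finset.sum_congr rfl fun A _ => ?_
    have h : ∀ B, p₁ A * p₂ B * (if v ∈ f A B then (1 : ℝ) else 0) =
        (p₁ A * (if v ∈ A then 1 else 0)) * p₂ B := by
      intro B
      by_cases hp : p₂ B = 0
      · rw [hp]; simp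
      · have hvB : v ∉ B := fun h => Finset.disjoint_left.1 hd hv (hsub2 B hp h)
        have : v ∈ f A B ↔ v ∈ A := by
          rw [hf]
          dsimp only
          rw [Finset.mem_union, mem_Av]
          tauto
        by_cases hvA : v ∈ A
        · rw [if_pos (this.2 hvA), if_pos hvA]; ring
        · rw [if_neg (fun h => hvA (this.1 h)), if_neg hvA]; ring
    simp only [h]
    rw [← Finset.mul_sum, h₂.2.2, mul_one]
  · intro v hv
    rw [mg, push f p₁ p₂ (fun S => if v ∈ S then 1 else 0)]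
    have h : ∀ A B, p₁ A * p₂ B * (if v ∈ f A B then (1 : ℝ) else 0) ≤
        p₁ A * (p₂ B * (if v ∈ B then 1 else 0)) := by
      intro A B
      by_cases hp : p₁ A = 0
      · rw [hp]; simp
      · have hvA : v ∉ A := fun h => Finset.disjoint_left.1 hd (hsub1 A hp h) hv
        have h3 : (if v ∈ f A B then (1 : ℝ) else 0) ≤ (if v ∈ B then (1 : ℝ) else 0) := by
          by_cases hvB : v ∈ B
          · rw [if_pos hvB]; split_ifs <;> norm_num
          · rw [if_neg hvB, if_neg]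
            rw [hf]
            dsimp only
            rw [Finset.mem_union, mem_Av]
            tauto
        have := mul_le_mul_of_nonneg_left h3 (mul_nonneg (h₁.1 A) (h₂.1 B))
        linarith
    refine (Finset.sum_le_sum fun A _ => Finset.sum_le_sum fun B _ => h A B).trans ?_
    simp only [← Finset.mul_sum]
    rw [← Finset.sum_mul, h₁.2.2, one_mul, mg]
  · intro v hv
    rw [mg, mg, push f p₁ p₂ (fun S => if v ∈ S then 1 else 0)]
    -- pointwise lower bound
    have h : ∀ A B, p₁ A * (p₂ B * (if v ∈ B then (1 : ℝ) else 0)) -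
        (p₁ A * ∑ u ∈ Nb G N₁ v, (if u ∈ A then (1 : ℝ) else 0)) *
        (p₂ B * (if v ∈ B then (1 : ℝ) else 0)) ≤
        p₁ A * p₂ B * (if v ∈ f A B then (1 : ℝ) else 0) := by
      intro A B
      by_cases hp : p₁ A = 0
      · rw [hp]; simp
      · have hnn : 0 ≤ ∑ u ∈ Nb G N₁ v, (if u ∈ A then (1 : ℝ) else 0) :=
          Finset.sum_nonneg fun u _ => by split_ifs <;> norm_num
        have h3 : (if v ∈ B then (1 : ℝ) else 0) -
            (∑ u ∈ Nb G N₁ v, (if u ∈ A then (1 : ℝ) else 0)) * (if v ∈ B then (1 : ℝ) else 0) ≤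
            (if v ∈ f A B then (1 : ℝ) else 0) := by
          by_cases hvB : v ∈ B
          · rw [if_pos hvB]
            by_cases hvf : v ∈ f A B
            · rw [if_pos hvf]; linarith
            · rw [if_neg hvf]
              have : ∃ u ∈ A, G.Adj v u := by
                by_contra hcon
                push Not at hcon
                refine hvf ?_
                rw [hf]
                dsimp only
                rw [Finset.mem_union, mem_Av]
                exact Or.inr ⟨hvB, hcon⟩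
              obtain ⟨u, huA, hvu⟩ := this
              have h4 := Finset.single_le_sum (f := fun u => (if u ∈ A then (1 : ℝ) else 0))
                (s := Nb G N₁ v) (fun x _ => by split_ifs <;> norm_num)
                (mem_Nb.2 ⟨hsub1 A hp huA, hvu⟩ : u ∈ Nb G N₁ v)
              rw [if_pos huA] at h4
              linarith
          · rw [if_neg hvB]
            have : (0 : ℝ) ≤ (if v ∈ f A B then (1 : ℝ) else 0) := by split_ifs <;> norm_num
            linarith
        have := mul_le_mul_of_nonneg_left h3 (mul_nonneg (h₁.1 A) (h₂.1 B))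
        linarith
    refine le_trans (le_of_eq ?_) (Finset.sum_le_sum fun A _ => Finset.sum_le_sum fun B _ => h A B)
    simp only [Finset.sum_sub_distrib, ← Finset.mul_sum]
    rw [← Finset.sum_mul, h₁.2.2, one_mul]
    congr 1
    rw [← Finset.sum_mul, mul_comm]
    congr 1
    simp only [mg, Finset.mul_sum]
    rw [Finset.sum_comm]

/-- Combining the blocks, from heavy to light. -/
theorem combine_blocks {T δ θ : ℝ} (hT : 0 < T) (hθ : 0 ≤ θ) (w : V → ℝ)
    (hw : ∀ v, 0 ≤ w v) (V0 : Finset V) (b : V → ℤ)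
    (hlight : ∀ u ∈ V0, ∀ v ∈ V0, b u < b v → w u ≤ θ * w v)
    (hblock : ∀ i : ℤ, ∃ π : Finset V → ℝ, IsDist G (V0.filter (fun v => b v = i)) π ∧
      (∀ v, mg π v ≤ 1 / T) ∧
      (1 - δ) / T * ∑ v ∈ V0.filter (fun v => b v = i), w v ≤
        ∑ v ∈ V0.filter (fun v => b v = i), w v * mg π v) :
    ∀ s : Finset ℤ, ∃ π : Finset V → ℝ, IsDist G (V0.filter (fun v => b v ∈ s)) π ∧
      (∀ v, mg π v ≤ 1 / T) ∧
      (1 - δ) / T * (∑ v ∈ V0.filter (fun v => b v ∈ s), w v) -
        θ / T ^ 2 * ∑ v ∈ V0.filter (fun v => b v ∈ s),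
          w v * ((Nb G (V0.filter (fun v => b v ∈ s)) v).card : ℝ) ≤
        ∑ v ∈ V0.filter (fun v => b v ∈ s), w v * mg π v := by
  intro s
  induction s using Finset.induction_on_min with
  | empty =>
    refine ⟨fun A => if A = ∅ then 1 else 0, ⟨?_, ?_, ?_⟩, ?_, ?_⟩
    · intro A; dsimp only; split_ifs <;> norm_num
    · intro A hA
      dsimp only at hA
      by_cases h : A = ∅
      · rw [h]; exact empty_mem_ind _
      · rw [if_neg h] at hA; exact absurd rfl hA
    · rw [Finset.sum_ite_eq' Finset.univ (∅ : Finset V) (fun _ => (1 : ℝ))]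
      simp
    · intro v
      have : mg (fun A : Finset V => if A = ∅ then (1 : ℝ) else 0) v = 0 := by
        rw [mg]
        refine Finset.sum_eq_zero fun A _ => ?_
        by_cases h : A = ∅
        · rw [h]; simp
        · rw [if_neg h, zero_mul]
      rw [this]; positivity
    · simp
  | insert a s hmin ih =>
    obtain ⟨p₁, h₁, h₁m, h₁w⟩ := ih
    obtain ⟨p₂, h₂, h₂m, h₂w⟩ := hblock a
    set N₁ := V0.filter (fun v => b v ∈ s) with hN₁
    set N₂ := V0.filter (fun v => b v = a) with hN₂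
    have has : a ∉ s := fun h => lt_irrefl a (hmin a h)
    have hd : Disjoint N₁ N₂ := by
      rw [Finset.disjoint_left]
      intro v hv1 hv2
      rw [Finset.mem_filter] at hv1 hv2
      exact has (hv2.2 ▸ hv1.2)
    have hU : V0.filter (fun v => b v ∈ insert a s) = N₁ ∪ N₂ := by
      ext v
      simp only [hN₁, hN₂, Finset.mem_filter, Finset.mem_union, Finset.mem_insert]
      tauto
    obtain ⟨π, hπ, hπ1, hπ2, hπ3⟩ := combine hd h₁ h₂
    rw [hU]
    refine ⟨π, hπ, ?_, ?_⟩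
    · intro v
      by_cases hv : v ∈ N₁ ∪ N₂
      · rcases Finset.mem_union.1 hv with h | h
        · rw [hπ1 v h]; exact h₁m v
        · exact (hπ2 v h).trans (h₂m v)
      · rw [mg_zero hπ hv]; positivity
    · rw [Finset.sum_union hd, Finset.sum_union hd, Finset.sum_union hd]
      have e1 : ∑ v ∈ N₁, w v * mg π v = ∑ v ∈ N₁, w v * mg p₁ v :=
        Finset.sum_congr rfl fun v hv => by rw [hπ1 v hv]
      have e2 : ∑ v ∈ N₂, w v * mg p₂ v - ∑ v ∈ N₂, w v * (mg p₂ v * ∑ u ∈ Nb G N₁ v, mg p₁ u) ≤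
          ∑ v ∈ N₂, w v * mg π v := by
        rw [← Finset.sum_sub_distrib]
        refine Finset.sum_le_sum fun v hv => ?_
        have := mul_le_mul_of_nonneg_left (hπ3 v hv) (hw v)
        linarith
      -- the loss
      have e3 : ∑ v ∈ N₂, w v * (mg p₂ v * ∑ u ∈ Nb G N₁ v, mg p₁ u) ≤
          θ / T ^ 2 * ∑ u ∈ N₁, w u * ((Nb G N₂ u).card : ℝ) := by
        have f1 : ∑ v ∈ N₂, w v * (mg p₂ v * ∑ u ∈ Nb G N₁ v, mg p₁ u) =
            ∑ u ∈ N₁, ∑ v ∈ Nb G N₂ u, w v * mg p₂ v * mg p₁ u := by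
          have g1 : ∀ v, w v * (mg p₂ v * ∑ u ∈ Nb G N₁ v, mg p₁ u) =
              ∑ u ∈ N₁, if G.Adj v u then w v * mg p₂ v * mg p₁ u else 0 := by
            intro v
            rw [← Finset.sum_filter, Nb, Finset.mul_sum, Finset.mul_sum]
            exact Finset.sum_congr rfl fun u _ => by ring
          simp only [g1]
          rw [Finset.sum_comm]
          refine Finset.sum_congr rfl fun u _ => ?_
          rw [← Finset.sum_filter]
          refine Finset.sum_congr ?_ fun _ _ => rfl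
          ext v
          rw [mem_Nb, Finset.mem_filter, G.adj_comm]
        rw [f1, Finset.mul_sum]
        refine Finset.sum_le_sum fun u hu => ?_
        have hu' := Finset.mem_filter.1 hu
        have f2 : ∀ v ∈ Nb G N₂ u, w v * mg p₂ v * mg p₁ u ≤ θ / T ^ 2 * w u := by
          intro v hv
          have hv' := Finset.mem_filter.1 (mem_Nb.1 hv).1
          have hlt : b v < b u := by rw [hv'.2]; exact hmin _ hu'.2
          have g1 := hlight v hv'.1 u hu'.1 hlt
          have g2 : mg p₂ v * mg p₁ u ≤ 1 / T * (1 / T) :=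
            mul_le_mul (h₂m v) (h₁m u) (mg_nonneg h₁ u) (by positivity)
          have g3 : 0 ≤ mg p₂ v * mg p₁ u := mul_nonneg (mg_nonneg h₂ v) (mg_nonneg h₁ u)
          calc w v * mg p₂ v * mg p₁ u = w v * (mg p₂ v * mg p₁ u) := by ring
            _ ≤ (θ * w u) * (1 / T * (1 / T)) :=
                mul_le_mul g1 g2 g3 (mul_nonneg hθ (hw u))
            _ = θ / T ^ 2 * w u := by field_simp
        refine (Finset.sum_le_sum f2).trans (le_of_eq ?_)
        rw [Finset.sum_const, nsmul_eq_mul]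
        ring
      have e4 : ∀ v, ((Nb G (N₁ ∪ N₂) v).card : ℝ) =
          ((Nb G N₁ v).card : ℝ) + ((Nb G N₂ v).card : ℝ) := by
        intro v
        rw [Nb, Finset.filter_union, Finset.card_union_of_disjoint]
        · push_cast; rfl
        · exact Finset.disjoint_filter_filter hd
      have e5 : ∑ v ∈ N₁, w v * ((Nb G (N₁ ∪ N₂) v).card : ℝ) =
          ∑ v ∈ N₁, w v * ((Nb G N₁ v).card : ℝ) + ∑ v ∈ N₁, w v * ((Nb G N₂ v).card : ℝ) := by
        rw [← Finset.sum_add_distrib]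
        exact Finset.sum_congr rfl fun v _ => by rw [e4]; ring
      have e6 : 0 ≤ ∑ v ∈ N₂, w v * ((Nb G (N₁ ∪ N₂) v).card : ℝ) :=
        Finset.sum_nonneg fun v _ => mul_nonneg (hw v) (by positivity)
      have hc : 0 ≤ θ / T ^ 2 := by positivity
      have e7 := mul_nonneg hc e6
      rw [e5, e1]
      have : θ / T ^ 2 * (∑ v ∈ N₁, w v * ((Nb G N₁ v).card : ℝ) +
          ∑ v ∈ N₁, w v * ((Nb G N₂ v).card : ℝ) +
          ∑ v ∈ N₂, w v * ((Nb G (N₁ ∪ N₂) v).card : ℝ)) =
          θ / T ^ 2 * ∑ v ∈ N₁, w v * ((Nb G N₁ v).card : ℝ) +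
          θ / T ^ 2 * ∑ v ∈ N₁, w v * ((Nb G N₂ v).card : ℝ) +
          θ / T ^ 2 * ∑ v ∈ N₂, w v * ((Nb G (N₁ ∪ N₂) v).card : ℝ) := by ring
      rw [this]
      have e8 : (1 - δ) / T * (∑ v ∈ N₁, w v + ∑ v ∈ N₂, w v) =
          (1 - δ) / T * ∑ v ∈ N₁, w v + (1 - δ) / T * ∑ v ∈ N₂, w v := by ring
      rw [e8]
      linarith

/-- **Arbitrary weights.** If random independent sets as in `block` exist for all sets of
vertices of comparable weights, then there is an independent set of large weight. -/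
theorem weights {T δ L : ℝ} {Δ K0 : ℕ} (hT : 0 < T) (hK0 : 1 ≤ K0) (hL : 0 < L)
    (hdeg : ∀ v : V, (Nb G Finset.univ v).card ≤ Δ) (w : V → ℝ) (hw : ∀ v, 0 ≤ w v)
    (hblock : ∀ N : Finset V, (∀ v ∈ N, ∀ x ∈ N, w v ≤ Real.exp (K0 * L) * w x) →
      ∃ π : Finset V → ℝ, IsDist G N π ∧ (∀ v, mg π v ≤ 1 / T) ∧
        (1 - δ) / T * ∑ v ∈ N, w v ≤ ∑ v ∈ N, w v * mg π v)
    (hpos : Real.exp (-L) * Δ / T ≤ 1 - δ) :
    ∃ I ∈ Ind G Finset.univ, (1 - 1 / (K0 : ℝ)) * (1 - δ - Real.exp (-L) * Δ / T) *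
      ∑ v, w v ≤ T * ∑ v ∈ I, w v := by
  have hK0' : (0 : ℝ) < K0 := by exact_mod_cast hK0
  have hK0z : (0 : ℤ) < K0 := by exact_mod_cast hK0
  set ℓ : V → ℤ := fun v => ⌊Real.log (w v) / L⌋ with hℓ
  -- choose the class that is left out
  set P : Finset V := Finset.univ.filter (fun v => 0 < w v) with hP
  have hsumP : ∑ v, w v = ∑ v ∈ P, w v := by
    rw [hP, Finset.sum_filter]
    refine Finset.sum_congr rfl fun v _ => ?_
    split_ifs with h
    · rfl
    · exact le_antisymm (not_lt.1 h) (hw v)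
  obtain ⟨j, hj, hjsum⟩ : ∃ j ∈ Finset.range K0,
      ∑ v ∈ P.filter (fun v => ℓ v % K0 = j), w v ≤ 1 / (K0 : ℝ) * ∑ v, w v := by
    by_contra hcon
    push Not at hcon
    have h1 : ∑ _j ∈ Finset.range K0, 1 / (K0 : ℝ) * ∑ v, w v <
        ∑ j ∈ Finset.range K0, ∑ v ∈ P.filter (fun v => ℓ v % K0 = j), w v :=
      Finset.sum_lt_sum_of_nonempty (by
        rw [Finset.nonempty_range_iff]; omega) (fun j hj => hcon j hj)
    rw [Finset.sum_const, Finset.card_range, nsmul_eq_mul] at h1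
    have h2 : ∑ j ∈ Finset.range K0, ∑ v ∈ P.filter (fun v => ℓ v % K0 = j), w v =
        ∑ v ∈ P, w v := by
      simp only [Finset.sum_filter]
      rw [Finset.sum_comm]
      refine Finset.sum_congr rfl fun v _ => ?_
      have h3 : 0 ≤ ℓ v % (K0 : ℤ) := Int.emod_nonneg _ hK0z.ne'
      have h4 : ℓ v % (K0 : ℤ) < K0 := Int.emod_lt_of_pos _ hK0z
      rw [Finset.sum_eq_single (ℓ v % (K0 : ℤ)).toNat]
      · rw [if_pos]
        rw [Int.toNat_of_nonneg h3]
      · intro i _ hi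
        rw [if_neg]
        intro h
        apply hi
        rw [h]; simp
      · intro h
        exfalso
        apply h
        rw [Finset.mem_range]
        omega
    rw [h2, ← hsumP] at h1
    have h3 : (K0 : ℝ) * (1 / (K0 : ℝ) * ∑ v, w v) = ∑ v, w v := by
      field_simp
    linarith
  set V0 : Finset V := P.filter (fun v => ¬ ℓ v % K0 = j) with hV0
  have hV0sum : (1 - 1 / (K0 : ℝ)) * ∑ v, w v ≤ ∑ v ∈ V0, w v := by
    have := Finset.sum_filter_add_sum_filter_not P (fun v => ℓ v % K0 = j) w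
    rw [hV0]
    rw [← hsumP] at this
    have e : (1 - 1 / (K0 : ℝ)) * ∑ v, w v = ∑ v, w v - 1 / (K0 : ℝ) * ∑ v, w v := by ring
    rw [e]
    linarith
  set b : V → ℤ := fun v => (ℓ v - j) / K0 with hb
  have hrange : ∀ v ∈ V0, (K0 : ℤ) * b v + 1 ≤ ℓ v - j ∧ ℓ v - j ≤ K0 * b v + (K0 - 1) ∧
      0 < w v := by
    intro v hv
    rw [hV0, Finset.mem_filter, hP, Finset.mem_filter] at hv
    have h1 := Int.mul_ediv_add_emod (ℓ v - j) K0
    have h2 : 0 ≤ (ℓ v - j) % (K0 : ℤ) := Int.emod_nonneg _ hK0z.ne'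
    have h3 : (ℓ v - j) % (K0 : ℤ) < K0 := Int.emod_lt_of_pos _ hK0z
    have h4 : (ℓ v - j) % (K0 : ℤ) ≠ 0 := by
      intro h
      apply hv.2
      have h5 : (K0 : ℤ) ∣ ℓ v - j := Int.dvd_of_emod_eq_zero h
      have h6 : ℓ v % K0 = (j : ℤ) % K0 := Int.emod_eq_emod_iff_emod_sub_eq_zero.2 h
      rw [h6]
      have hjlt : j < K0 := Finset.mem_range.1 hj
      exact Int.emod_eq_of_lt (by positivity) (by exact_mod_cast hjlt)
    refine ⟨?_, ?_, hv.1.2⟩
    · simp only [hb]; omega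
    · simp only [hb]; omega
  have hlog : ∀ v ∈ V0, (ℓ v : ℝ) * L ≤ Real.log (w v) ∧ Real.log (w v) < ((ℓ v : ℝ) + 1) * L := by
    intro v _
    constructor
    · have := Int.floor_le (Real.log (w v) / L)
      rwa [le_div_iff₀ hL] at this
    · have := Int.lt_floor_add_one (Real.log (w v) / L)
      rwa [div_lt_iff₀ hL] at this
  have hlight : ∀ u ∈ V0, ∀ v ∈ V0, b u < b v → w u ≤ Real.exp (-L) * w v := by
    intro u hu v hv huv
    obtain ⟨u1, u2, u3⟩ := hrange u hu
    obtain ⟨v1, v2, v3⟩ := hrange v hv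
    have h1 : ℓ u + 2 ≤ ℓ v := by
      have : (K0 : ℤ) * (b u + 1) ≤ K0 * b v := Int.mul_le_mul_of_nonneg_left huv hK0z.le
      have e : (K0 : ℤ) * (b u + 1) = K0 * b u + K0 := by ring
      omega
    have h1' : (ℓ u : ℝ) + 2 ≤ ℓ v := by exact_mod_cast h1
    have h2 := (hlog u hu).2
    have h3 := (hlog v hv).1
    have h4 : Real.log (w u) ≤ -L + Real.log (w v) := by nlinarith
    calc w u = Real.exp (Real.log (w u)) := (Real.exp_log u3).symm
      _ ≤ Real.exp (-L + Real.log (w v)) := Real.exp_le_exp.2 h4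
      _ = Real.exp (-L) * w v := by rw [Real.exp_add, Real.exp_log v3]
  have hblock' : ∀ i : ℤ, ∃ π : Finset V → ℝ, IsDist G (V0.filter (fun v => b v = i)) π ∧
      (∀ v, mg π v ≤ 1 / T) ∧
      (1 - δ) / T * ∑ v ∈ V0.filter (fun v => b v = i), w v ≤
        ∑ v ∈ V0.filter (fun v => b v = i), w v * mg π v := by
    intro i
    refine hblock _ ?_
    intro v hv x hx
    rw [Finset.mem_filter] at hv hx
    obtain ⟨u1, u2, u3⟩ := hrange v hv.1
    obtain ⟨v1, v2, v3⟩ := hrange x hx.1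
    rw [hv.2] at u1 u2
    rw [hx.2] at v1 v2
    have h1 : ℓ v + 2 ≤ ℓ x + K0 := by omega
    have h1' : (ℓ v : ℝ) + 2 ≤ ℓ x + K0 := by exact_mod_cast h1
    have h2 := (hlog v hv.1).2
    have h3 := (hlog x hx.1).1
    have h4 : Real.log (w v) ≤ K0 * L + Real.log (w x) := by nlinarith
    calc w v = Real.exp (Real.log (w v)) := (Real.exp_log u3).symm
      _ ≤ Real.exp (K0 * L + Real.log (w x)) := Real.exp_le_exp.2 h4
      _ = Real.exp (K0 * L) * w x := by rw [Real.exp_add, Real.exp_log v3]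
  obtain ⟨π, hπ, _, hπw⟩ := combine_blocks hT (Real.exp_pos (-L)).le w hw V0 b hlight hblock'
    (V0.image b)
  have hVV : V0.filter (fun v => b v ∈ V0.image b) = V0 := by
    rw [Finset.filter_true_of_mem]
    intro v hv
    exact Finset.mem_image_of_mem b hv
  rw [hVV] at hπ hπw
  have hcard : ∀ v, ((Nb G V0 v).card : ℝ) ≤ Δ := by
    intro v
    have : (Nb G V0 v).card ≤ Δ :=
      (Finset.card_le_card (Finset.filter_subset_filter _ (Finset.subset_univ _))).trans (hdeg v)
    exact_mod_cast this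
  have h1 : ∑ v ∈ V0, w v * ((Nb G V0 v).card : ℝ) ≤ Δ * ∑ v ∈ V0, w v := by
    rw [Finset.mul_sum]
    refine Finset.sum_le_sum fun v _ => ?_
    have := mul_le_mul_of_nonneg_left (hcard v) (hw v)
    linarith
  have h2 : (1 - δ - Real.exp (-L) * Δ / T) / T * ∑ v ∈ V0, w v ≤ ∑ v ∈ V0, w v * mg π v := by
    have h3 := mul_le_mul_of_nonneg_left h1 (by positivity : 0 ≤ Real.exp (-L) / T ^ 2)
    have e : (1 - δ - Real.exp (-L) * Δ / T) / T * ∑ v ∈ V0, w v =
        (1 - δ) / T * (∑ v ∈ V0, w v) - Real.exp (-L) / T ^ 2 * (Δ * ∑ v ∈ V0, w v) := by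
      field_simp
    rw [e]
    linarith
  -- averaging
  have h4 : ∑ v ∈ V0, w v * mg π v = ∑ A, π A * ∑ v ∈ A, w v := by
    have h5 : ∀ v, w v * mg π v = ∑ A, π A * (if v ∈ A then w v else 0) := by
      intro v
      rw [mg, Finset.mul_sum]
      refine Finset.sum_congr rfl fun A _ => ?_
      split_ifs <;> ring
    simp only [h5]
    rw [Finset.sum_comm]
    refine Finset.sum_congr rfl fun A _ => ?_
    rw [← Finset.mul_sum]
    by_cases hA : π A = 0
    · rw [hA]; simp
    · congr 1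
      rw [← Finset.sum_filter]
      refine Finset.sum_congr ?_ fun _ _ => rfl
      ext v
      rw [Finset.mem_filter]
      exact ⟨fun h => h.2, fun h => ⟨(mem_ind.1 (hπ.2.1 A hA)).1 h, h⟩⟩
  obtain ⟨A, hA, hAw⟩ : ∃ A, π A ≠ 0 ∧ ∑ v ∈ V0, w v * mg π v ≤ ∑ v ∈ A, w v := by
    by_contra hcon
    push Not at hcon
    have h5 : ∑ A, π A * ∑ v ∈ A, w v < ∑ A, π A * ∑ v ∈ V0, w v * mg π v := by
      obtain ⟨A0, _, hA0⟩ : ∃ A0 ∈ (Finset.univ : Finset (Finset V)), π A0 ≠ 0 := by
        refine Finset.exists_ne_zero_of_sum_ne_zero ?_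
        rw [hπ.2.2]; norm_num
      refine Finset.sum_lt_sum ?_ ⟨A0, Finset.mem_univ _, ?_⟩
      · intro A _
        by_cases hA : π A = 0
        · rw [hA]; simp
        · exact mul_le_mul_of_nonneg_left (hcon A hA).le (hπ.1 A)
      · exact mul_lt_mul_of_pos_left (hcon A0 hA0) (lt_of_le_of_ne (hπ.1 A0) (Ne.symm hA0))
    rw [← Finset.sum_mul, hπ.2.2, one_mul, h4] at h5
    exact lt_irrefl _ h5
  refine ⟨A, ind_mono (Finset.subset_univ _) (hπ.2.1 A hA), ?_⟩
  have h6 := h2.trans hAw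
  rw [div_mul_eq_mul_div, div_le_iff₀ hT] at h6
  have h7 : 0 ≤ 1 - δ - Real.exp (-L) * Δ / T := by linarith
  have h8 := mul_le_mul_of_nonneg_left hV0sum h7
  calc (1 - 1 / (K0 : ℝ)) * (1 - δ - Real.exp (-L) * Δ / T) * ∑ v, w v =
      (1 - δ - Real.exp (-L) * Δ / T) * ((1 - 1 / (K0 : ℝ)) * ∑ v, w v) := by ring
    _ ≤ _ := h8
    _ ≤ _ := h6
    _ = _ := by ring

end Pool.Agent.Helper953TT
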