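import Mathlib
import Pool.Agent.TH855.Occ
import Pool.Agent.Helper953_TT.Combine

set_option autoImplicit false

/-!
# Putting the pieces together for a fixed maximum degree
-/

namespace Pool.Agent.Helper953TT

open Finset Classical Pool.Agent.TH855

set_option linter.unusedSectionVars false

variable {V : Type} [Fintype V] {G : SimpleGraph V} {lam : ℝ}

theorem zf_const (N : Finset V) : Zf G N (fun _ => lam) = ZZ G lam N := by
  rw [Zf, ZZ, Sm]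
  refine Finset.sum_congr rfl fun A _ => ?_
  rw [Finset.prod_const, mul_one]

theorem mf_const (N : Finset V) :
    Mf G N (fun _ => lam) = Sm G lam N (fun A => (A.card : ℝ)) := by
  rw [Mf, Sm]
  refine Finset.sum_congr rfl fun A _ => ?_
  rw [Finset.prod_const]; ring

theorem occ_const (hl : 0 < lam) {t : ℕ} (ht : 1 ≤ t) {ε T1 E0 h0 : ℝ} {BB : ℕ} (hBB : 1 ≤ BB)
    (hε : 0 < ε) (hε1 : ε < 1) (hT1 : 0 < T1)
    (hc1 : 2 * t * lam ≤ ε / 2)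
    (hc2 : lam + ε / 2 + 2 ^ t * t.factorial / (ε / 2) ^ (t - 1) * (t * lam * T1 ^ (t - 1)) ≤ ε)
    (hc3 : Real.exp T1 ≤ ε * (E0 / (2 * BB))) (hh0 : h0 ≤ (1 - ε) ^ 2 * T1)
    (N : Finset V) (hP : ¬ PP G t N) (hZ : E0 / (2 * BB) ≤ ZZ G lam N) :
    h0 * ZZ G lam N ≤ Sm G lam N (fun A => (A.card : ℝ)) := by
  have hK : ∀ W ⊆ N, W.card = t → (N.filter (fun u => ∀ w ∈ W, G.Adj u w)).card ≤ t := by
    intro W hW hWt
    by_contra h
    push Not at h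
    exact hP ⟨W, hW, hWt, h⟩
  have h1 := occ (G := G) lam (ε / 2) ε T1 hl.le (by positivity) hε1 hT1 N t ht hc1 hc2 hK
    (fun _ => lam) (fun _ => hl.le) (fun _ => le_refl _)
  rw [zf_const, mf_const] at h1
  have hZp := ZZ_pos (G := G) hl.le N
  have h2 : Real.exp T1 ≤ ε * ZZ G lam N :=
    hc3.trans (mul_le_mul_of_nonneg_left hZ hε.le)
  have h3 : 0 < (1 - ε) * T1 := mul_pos (by linarith) hT1
  have h4 : (1 - ε) * ZZ G lam N ≤ 1 / ((1 - ε) * T1) * Sm G lam N (fun A => (A.card : ℝ)) := by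
    linarith
  rw [one_div, ← div_eq_inv_mul, le_div_iff₀ h3] at h4
  calc h0 * ZZ G lam N ≤ (1 - ε) ^ 2 * T1 * ZZ G lam N :=
        mul_le_mul_of_nonneg_right hh0 hZp.le
    _ = (1 - ε) * ZZ G lam N * ((1 - ε) * T1) := by ring
    _ ≤ _ := h4

theorem inner (hl : 0 < lam) (hl1 : lam ≤ 1) {r Δ j k BB : ℕ} {ε T1 E0 h0 : ℝ}
    (hk : 1 ≤ k) (hBBk : k ^ r ≤ BB) (hBB : 1 ≤ BB)
    (hε : 0 < ε) (hε1 : ε < 1) (hT1 : 0 < T1)
    (hc1 : 2 * ((r + 1 : ℕ) : ℝ) * lam ≤ ε / 2)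
    (hc2 : lam + ε / 2 + 2 ^ (r + 1) * (r + 1).factorial / (ε / 2) ^ (r + 1 - 1) *
      (((r + 1 : ℕ) : ℝ) * lam * T1 ^ (r + 1 - 1)) ≤ ε)
    (hc3 : Real.exp T1 ≤ ε * (E0 / (2 * BB))) (hh0 : h0 ≤ (1 - ε) ^ 2 * T1)
    (hh00 : 0 ≤ h0) (hE : 2 ≤ E0) (hj : 2 * h0 ≤ j + 1)
    (hkj : 2 * ((Δ : ℝ) + 1) ^ j ≤ (1 + lam) ^ k)
    (hcl : ∀ C : Finset V, C.card = r + 1 → ¬ ∀ x ∈ C, ∀ y ∈ C, x ≠ y → G.Adj x y)
    (N : Finset V) (hN : N.card ≤ Δ) :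
    h0 * (lam + ZZ G lam N) ≤ lam * (h0 * (1 + E0 / lam)) +
      Sm G lam N (FF G (r + 1) (h0 * E0) N) := by
  have hE0 : 0 < E0 := by linarith
  have hM : lam * (h0 * (1 + E0 / lam)) = h0 * lam + h0 * E0 := by field_simp
  rw [hM]
  have hc0 : 0 ≤ h0 * E0 := by positivity
  have hBBr : (1 : ℝ) ≤ BB := by exact_mod_cast hBB
  by_cases hcard : N.card ≤ BB
  · by_cases hZ : E0 / (2 * BB) ≤ ZZ G lam N
    · have h1 := core (G := G) hl hl1 (r + 1) (c := h0 * E0) (h0 := h0) (E0 := E0) (BB := BB)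
        hBBr hh00 hE (le_refl _)
        (fun M hP hZM => occ_const hl (by omega) hBB hε hε1 hT1 hc1 hc2 hc3 hh0 M hP hZM)
        N.card N rfl (by exact_mod_cast hcard) hZ
      linarith
    · push Not at hZ
      have h2 : E0 / (2 * BB) ≤ E0 := div_le_self hE0.le (by linarith)
      have h3 : h0 * ZZ G lam N ≤ h0 * E0 := mul_le_mul_of_nonneg_left (hZ.le.trans h2) hh00
      have h4 : 0 ≤ Sm G lam N (FF G (r + 1) (h0 * E0) N) := by
        refine Sm_nonneg hl.le fun A _ => ?_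
        rw [FF]
        refine add_nonneg (by positivity) (mul_nonneg hc0 ?_)
        split_ifs <;> norm_num
      linarith
  · push Not at hcard
    have h1 := ZZ_large (G := G) hl.le k r hk N (fun C _ hC => hcl C hC) (hBBk.trans hcard.le)
    have h2 : 2 * ((N.card : ℝ) + 1) ^ j ≤ ZZ G lam N := by
      have h3 : ((N.card : ℝ) + 1) ^ j ≤ ((Δ : ℝ) + 1) ^ j := by
        refine pow_le_pow_left₀ (by positivity) ?_ j
        have : (N.card : ℝ) ≤ Δ := by exact_mod_cast hN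
        linarith
      linarith
    have h3 := mean_large (G := G) hl.le hl1 j hj N h2
    have h4 : Sm G lam N (fun A => (A.card : ℝ)) ≤ Sm G lam N (FF G (r + 1) (h0 * E0) N) := by
      refine Sm_mono hl.le fun A _ => ?_
      rw [FF]
      have : 0 ≤ h0 * E0 * (if PP G (r + 1) (Av G N A) then (1 : ℝ) else 0) := by
        refine mul_nonneg hc0 ?_
        split_ifs <;> norm_num
      linarith
    linarith

theorem assemble (hl : 0 < lam) (hl1 : lam ≤ 1) {r Δ j k BB K0 : ℕ} {ε T1 E0 h0 T s : ℝ}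
    (hk : 1 ≤ k) (hBBk : k ^ r ≤ BB) (hBB : 1 ≤ BB)
    (hε : 0 < ε) (hε1 : ε < 1) (hT1 : 0 < T1)
    (hc1 : 2 * ((r + 1 : ℕ) : ℝ) * lam ≤ ε / 2)
    (hc2 : lam + ε / 2 + 2 ^ (r + 1) * (r + 1).factorial / (ε / 2) ^ (r + 1 - 1) *
      (((r + 1 : ℕ) : ℝ) * lam * T1 ^ (r + 1 - 1)) ≤ ε)
    (hc3 : Real.exp T1 ≤ ε * (E0 / (2 * BB))) (hh0 : h0 ≤ (1 - ε) ^ 2 * T1)
    (hh00 : 0 ≤ h0) (hE : 2 ≤ E0) (hj : 2 * h0 ≤ j + 1)
    (hkj : 2 * ((Δ : ℝ) + 1) ^ j ≤ (1 + lam) ^ k)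
    (hcl : ∀ C : Finset V, C.card = r + 1 → ¬ ∀ x ∈ C, ∀ y ∈ C, x ≠ y → G.Adj x y)
    (hCF : ∀ W W' : Finset V, W.card = r + 1 → W'.card = r + 1 →
      (∀ x ∈ W, ∀ y ∈ W', G.Adj x y) → (Cen G W W').card ≤ r + 1)
    (hdeg : ∀ v : V, (Nb G Finset.univ v).card ≤ Δ)
    (hT : 0 < T) (hs : 0 < s) (hK0 : 1 ≤ K0)
    (hgap0 : 0 < h0 * T - Δ - h0 * (1 + E0 / lam))
    (hgap : h0 * E0 * (T * ((Δ : ℝ) / (1 + lam) ^ k) + Real.exp (K0 * s) *
      ((BB : ℝ) ^ (r + 1) * ((r + 1 : ℕ) : ℝ) * (BB ^ (r + 1) * ((r + 1 : ℕ) : ℝ))) * (2 / lam)) ≤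
      ε * (h0 * T - Δ - h0 * (1 + E0 / lam)))
    (hpos : Real.exp (-s) * Δ / T ≤ 1 - ε)
    (w : V → ℝ) (hw : ∀ v, 0 ≤ w v) :
    ∃ I ∈ Ind G Finset.univ, (1 - 1 / (K0 : ℝ)) * (1 - ε - Real.exp (-s) * Δ / T) *
      ∑ v, w v ≤ T * ∑ v ∈ I, w v := by
  have hE0 : 0 < E0 := by linarith
  have hM0 : 0 ≤ h0 * (1 + E0 / lam) := by positivity
  refine weights hT hK0 hs hdeg w hw ?_ hpos
  intro N hNw
  have hdegN : ∀ (H : Finset V) (v : V) (M : Finset V), M ⊆ Nb G H v → M.card ≤ Δ := by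
    intro H v M hM
    refine (Finset.card_le_card (hM.trans ?_)).trans (hdeg v)
    exact Finset.filter_subset_filter _ (Finset.subset_univ _)
  refine block (η := (Δ : ℝ) / (1 + lam) ^ k) (κ := Real.exp (K0 * s) *
      ((BB : ℝ) ^ (r + 1) * ((r + 1 : ℕ) : ℝ) * (BB ^ (r + 1) * ((r + 1 : ℕ) : ℝ))) * (2 / lam))
    (c := h0 * E0) (h0 := h0) (M' := h0 * (1 + E0 / lam)) hl (r + 1) (by positivity) hM0 hT
    (by positivity) (by positivity) Δ N hdeg w hw ?_ ?_ hgap hgap0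
  · intro H _ v hv
    refine local_q hl (by positivity) hM0 hv ?_
    intro M hM
    exact inner hl hl1 hk hBBk hBB hε hε1 hT1 hc1 hc2 hc3 hh0 hh00 hE hj hkj hcl M
      (hdegN H v M hM)
  · intro H hH
    refine count_q hl hl1 (r + 1) BB (by omega) (by positivity) Δ hdeg hCF ?_ H w hw
      (Real.exp (K0 * s)) (Real.exp_pos _).le (fun v hv x hx => hNw v (hH hv) x (hH hx))
    intro M hM
    have hM' : BB < M.card := by exact_mod_cast hM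
    exact ZZ_large hl.le k r hk M (fun C _ hC => hcl C hC) (hBBk.trans hM'.le)

end Pool.Agent.Helper953TT
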