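import Mathlib

set_option autoImplicit false

/-!
# Choice of the parameters
-/

namespace Pool.Agent.Helper953TT

open Filter Topology Asymptotics

theorem key_exp (C : ℝ) (n : ℕ) (a : ℝ) (ha : 0 < a) :
    ∀ᶠ L : ℝ in atTop, C * L ^ n ≤ Real.exp (a * L) := by
  have h1 : (fun x : ℝ => x ^ n) =o[atTop] fun x => Real.exp (a * x) :=
    isLittleO_pow_exp_pos_mul_atTop n ha
  have hC : 0 < 1 / (|C| + 1) := by positivity
  have h2 := h1.bound hC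
  filter_upwards [h2, eventually_ge_atTop 0] with L hL h0
  rw [Real.norm_of_nonneg (by positivity), Real.norm_of_nonneg (Real.exp_pos _).le] at hL
  have h3 : (|C| + 1) * L ^ n ≤ Real.exp (a * L) := by
    rw [one_div, inv_mul_eq_div, le_div_iff₀ (by positivity)] at hL
    linarith
  have h4 : C * L ^ n ≤ (|C| + 1) * L ^ n := by
    refine mul_le_mul_of_nonneg_right ?_ (by positivity)
    linarith [le_abs_self C]
  linarith

theorem log_add (lam : ℝ) (h0 : 0 < lam) (h1 : lam ≤ 1) : lam / 2 ≤ Real.log (1 + lam) := by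
  have h2 := Real.one_sub_inv_le_log_of_pos (show 0 < 1 + lam by linarith)
  refine le_trans ?_ h2
  rw [inv_eq_one_div, le_sub_iff_add_le, div_add_div _ _ (by norm_num) (by linarith),
    div_le_one (by linarith)]
  nlinarith

theorem pow_le_exp_pow {lam L x : ℝ} {j k : ℕ} (h0 : 0 < lam) (h1 : lam ≤ 1) (hx : 0 < x)
    (hxL : Real.log x ≤ 2 * L) (hL : 1 ≤ L) (hj : (j : ℝ) ≤ 3 * L)
    (hk : 7 * L ^ 2 ≤ k * (lam / 2)) : 2 * x ^ j ≤ (1 + lam) ^ k := by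
  have h2 : Real.log (2 * x ^ j) ≤ Real.log ((1 + lam) ^ k) := by
    rw [Real.log_mul (by norm_num) (by positivity), Real.log_pow, Real.log_pow]
    have h3 : Real.log 2 ≤ 1 := by
      have := Real.log_two_lt_d9
      linarith
    have h4 : (j : ℝ) * Real.log x ≤ 3 * L * (2 * L) := by
      by_cases hp : 0 ≤ Real.log x
      · exact mul_le_mul hj hxL hp (by positivity)
      · push Not at hp
        have : (j : ℝ) * Real.log x ≤ 0 := mul_nonpos_of_nonneg_of_nonpos (by positivity) hp.le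
        nlinarith
    have h5 : (k : ℝ) * (lam / 2) ≤ k * Real.log (1 + lam) :=
      mul_le_mul_of_nonneg_left (log_add lam h0 h1) (by positivity)
    nlinarith
  exact (Real.log_le_log_iff (by positivity) (by positivity)).1 h2

/-- All the numerical conditions, for large maximum degree. -/
theorem params (r : ℕ) {ε : ℝ} (hε : 0 < ε) (hε4 : ε ≤ 1 / 4) :
    ∃ D0 : ℕ, ∀ Δ : ℕ, D0 ≤ Δ → ∃ (lam T1 E0 h0 T s : ℝ) (j k BB K0 : ℕ),
    0 < lam ∧ lam ≤ 1 ∧ 1 ≤ k ∧ k ^ r ≤ BB ∧ 1 ≤ BB ∧ 0 < T1 ∧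
    2 * ((r + 1 : ℕ) : ℝ) * lam ≤ ε / 2 ∧
    lam + ε / 2 + 2 ^ (r + 1) * (r + 1).factorial / (ε / 2) ^ (r + 1 - 1) *
      (((r + 1 : ℕ) : ℝ) * lam * T1 ^ (r + 1 - 1)) ≤ ε ∧
    Real.exp T1 ≤ ε * (E0 / (2 * BB)) ∧ h0 ≤ (1 - ε) ^ 2 * T1 ∧
    0 ≤ h0 ∧ 2 ≤ E0 ∧ 2 * h0 ≤ j + 1 ∧
    2 * ((Δ : ℝ) + 1) ^ j ≤ (1 + lam) ^ k ∧
    0 < T ∧ 0 < s ∧ 1 ≤ K0 ∧
    0 < h0 * T - Δ - h0 * (1 + E0 / lam) ∧
    h0 * E0 * (T * ((Δ : ℝ) / (1 + lam) ^ k) + Real.exp (K0 * s) *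
      ((BB : ℝ) ^ (r + 1) * ((r + 1 : ℕ) : ℝ) * (BB ^ (r + 1) * ((r + 1 : ℕ) : ℝ))) * (2 / lam)) ≤
      ε * (h0 * T - Δ - h0 * (1 + E0 / lam)) ∧
    Real.exp (-s) * Δ / T ≤ ε ∧
    1 / (K0 : ℝ) ≤ ε ∧
    T * ((1 - ε) ^ 2 * (1 - 2 * ε)) = (1 + 2 * ε) * (Δ / Real.log Δ) ∧ 1 ≤ Real.log Δ := by
  set n : ℕ := 2 * (r + 1) with hn
  set K0 : ℕ := ⌈1 / ε⌉₊ with hK0
  set C : ℝ := 2 ^ (r + 1) * (r + 1).factorial / (ε / 2) ^ (r + 1 - 1) * ((r + 1 : ℕ) : ℝ) with hC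
  have hC0 : 0 ≤ C := by positivity
  have hK0' : 1 / ε ≤ (K0 : ℝ) := Nat.le_ceil _
  have hK0p : (0 : ℝ) < K0 := lt_of_lt_of_le (by positivity) hK0'
  have hK01 : 1 ≤ K0 := by exact_mod_cast hK0p
  have hev : ∀ᶠ L : ℝ in atTop,
      14 ≤ L ∧ 3 / ε ^ 2 ≤ L ∧ 4 * ((r + 1 : ℕ) : ℝ) / ε ≤ L ∧ 2 * (1 + C) / ε ≤ L ∧
      2 / ε * L ^ ((n + 4) * r) ≤ Real.exp (ε * L) ∧
      2 / ε * L ^ 1 ≤ Real.exp (1 * L) ∧
      2 / ε * L ^ (n + 1) ≤ Real.exp (ε * L) ∧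
      4 * ((r + 1 : ℕ) : ℝ) ^ 2 / ε ^ 2 * L ^ (n + 1 + (n + 4) * (r * (r + 1) * 2)) ≤
        Real.exp (ε / 2 * L) ∧
      1 / ε * L ^ 1 ≤ Real.exp (ε / (2 * K0) * L) := by
    filter_upwards [eventually_ge_atTop 14, eventually_ge_atTop (3 / ε ^ 2),
      eventually_ge_atTop (4 * ((r + 1 : ℕ) : ℝ) / ε), eventually_ge_atTop (2 * (1 + C) / ε),
      key_exp (2 / ε) ((n + 4) * r) ε hε, key_exp (2 / ε) 1 1 one_pos,
      key_exp (2 / ε) (n + 1) ε hε,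
      key_exp (4 * ((r + 1 : ℕ) : ℝ) ^ 2 / ε ^ 2) (n + 1 + (n + 4) * (r * (r + 1) * 2)) (ε / 2)
        (by positivity),
      key_exp (1 / ε) 1 (ε / (2 * K0)) (by positivity)] with L h1 h2 h3 h4 h5 h6 h7 h8 h9
    exact ⟨h1, h2, h3, h4, h5, h6, h7, h8, h9⟩
  have htend : Tendsto (fun Δ : ℕ => Real.log (Δ : ℝ)) atTop atTop :=
    Real.tendsto_log_atTop.comp tendsto_natCast_atTop_atTop
  obtain ⟨D0, hD0⟩ := eventually_atTop.1 ((htend.eventually hev).and (eventually_ge_atTop 2))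
  refine ⟨D0, fun Δ hΔ => ?_⟩
  obtain ⟨⟨e1, e2, e3, e4, e5, e6, e7, e8, e9⟩, hΔ2⟩ := hD0 Δ hΔ
  set L : ℝ := Real.log (Δ : ℝ) with hL
  have hΔr : (2 : ℝ) ≤ Δ := by exact_mod_cast hΔ2
  have hexpL : Real.exp L = Δ := Real.exp_log (by linarith)
  have hL0 : 0 < L := by linarith
  have hL1 : 1 ≤ L := by linarith
  have hLn : 0 < L ^ n := by positivity
  have hLn1 : 1 ≤ L ^ n := one_le_pow₀ hL1
  have hLnL : L ≤ L ^ n := by
    calc L = L ^ 1 := (pow_one L).symm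
      _ ≤ L ^ n := pow_le_pow_right₀ hL1 (by omega)
  have h12 : 0 < 1 - 2 * ε := by linarith
  have h11 : 0 < 1 - ε := by linarith
  set lam : ℝ := 1 / L ^ n with hlam
  have hl0 : 0 < lam := by positivity
  have hl1 : lam ≤ 1 := by rw [hlam, div_le_one hLn]; exact hLn1
  have hlL : lam ≤ 1 / L := by
    rw [hlam]; exact one_div_le_one_div_of_le hL0 hLnL
  set T1 : ℝ := (1 - 2 * ε) * L with hT1
  have hT10 : 0 < T1 := by positivity
  have hT1L : T1 ≤ L := by nlinarith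
  set h0 : ℝ := (1 - ε) ^ 2 * T1 with hh0
  have hh00 : 0 < h0 := by positivity
  have h1e : (1 - ε) ^ 2 ≤ 1 := by nlinarith
  have hh0L : h0 ≤ L := by
    calc h0 ≤ 1 * T1 := mul_le_mul_of_nonneg_right h1e hT10.le
      _ = T1 := one_mul _
      _ ≤ L := hT1L
  set E0 : ℝ := Real.exp ((1 - ε) * L) with hE0
  have hE00 : 0 < E0 := Real.exp_pos _
  set k : ℕ := ⌈L ^ (n + 3)⌉₊ with hk
  have hkge : L ^ (n + 3) ≤ (k : ℝ) := Nat.le_ceil _
  have hkp : (0 : ℝ) < k := lt_of_lt_of_le (by positivity) hkge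
  have hk1 : 1 ≤ k := by exact_mod_cast hkp
  have hkle : (k : ℝ) ≤ L ^ (n + 4) := by
    have h1 : (k : ℝ) < L ^ (n + 3) + 1 := Nat.ceil_lt_add_one (by positivity)
    have h2 : (1 : ℝ) ≤ L ^ (n + 3) := one_le_pow₀ hL1
    have h3 : L ^ (n + 4) = L ^ (n + 3) * L := by ring
    nlinarith
  set j : ℕ := ⌈2 * L⌉₊ with hj
  have hjge : 2 * L ≤ (j : ℝ) := Nat.le_ceil _
  have hjle : (j : ℝ) ≤ 3 * L := by
    have h1 : (j : ℝ) < 2 * L + 1 := Nat.ceil_lt_add_one (by positivity)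
    linarith
  have hT : 0 < (1 + 2 * ε) * Δ / h0 := by positivity
  have hBBle : ((k ^ r : ℕ) : ℝ) ≤ L ^ ((n + 4) * r) := by
    push_cast
    rw [pow_mul]
    exact pow_le_pow_left₀ hkp.le hkle r
  have hBB1 : 1 ≤ k ^ r := Nat.one_le_pow _ _ hk1
  have hBBp : (0 : ℝ) < ((k ^ r : ℕ) : ℝ) := by exact_mod_cast hBB1
  -- the large power
  have hpow : 2 * ((Δ : ℝ) + 1) ^ j ≤ (1 + lam) ^ k := by
    refine pow_le_exp_pow (L := L) hl0 hl1 (by linarith) ?_ hL1 hjle ?_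
    · have h1 : Real.log ((Δ : ℝ) + 1) ≤ Real.log ((Δ : ℝ) * 2) :=
        Real.log_le_log (by linarith) (by linarith)
      rw [Real.log_mul (by linarith) (by norm_num)] at h1
      have h2 := Real.log_two_lt_d9
      linarith
    · have h1 : L ^ (n + 3) * (lam / 2) = L ^ 3 / 2 := by
        rw [hlam, pow_add]; field_simp
      have h2 : L ^ (n + 3) * (lam / 2) ≤ k * (lam / 2) :=
        mul_le_mul_of_nonneg_right hkge (by positivity)
      have h3 : 7 * L ^ 2 ≤ L ^ 3 / 2 := by nlinarith [sq_nonneg L]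
      linarith
  -- the additive error
  have hM : h0 * (1 + E0 / lam) ≤ ε * Δ := by
    have h1 : E0 / lam = E0 * L ^ n := by rw [hlam]; field_simp
    have h2 : h0 * (1 + E0 / lam) ≤ L * (1 + E0 * L ^ n) := by
      rw [h1]; exact mul_le_mul_of_nonneg_right hh0L (by positivity)
    have h3 : L ≤ ε / 2 * Δ := by
      rw [pow_one, one_mul, hexpL] at e6
      have : L = ε / 2 * (2 / ε * L) := by field_simp
      rw [this]
      exact mul_le_mul_of_nonneg_left e6 (by positivity)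
    have h4 : L * (E0 * L ^ n) ≤ ε / 2 * Δ := by
      have h5 : L * (E0 * L ^ n) = E0 * (ε / 2 * (2 / ε * L ^ (n + 1))) := by
        rw [pow_succ]; field_simp
      have h6 : E0 * Real.exp (ε * L) = Δ := by
        rw [hE0, ← Real.exp_add, ← hexpL]; congr 1; ring
      rw [h5]
      calc E0 * (ε / 2 * (2 / ε * L ^ (n + 1))) ≤ E0 * (ε / 2 * Real.exp (ε * L)) := by
            gcongr
        _ = ε / 2 * (E0 * Real.exp (ε * L)) := by ring
        _ = ε / 2 * Δ := by rw [h6]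
    calc h0 * (1 + E0 / lam) ≤ L * (1 + E0 * L ^ n) := h2
      _ = L + L * (E0 * L ^ n) := by ring
      _ ≤ ε * Δ := by linarith
  have hhT : h0 * ((1 + 2 * ε) * Δ / h0) = (1 + 2 * ε) * Δ := by field_simp
  have hgapge : ε * Δ ≤ h0 * ((1 + 2 * ε) * Δ / h0) - Δ - h0 * (1 + E0 / lam) := by
    rw [hhT]; linarith
  refine ⟨lam, T1, E0, h0, (1 + 2 * ε) * Δ / h0, ε / (2 * K0) * L, j, k, k ^ r, K0,
    hl0, hl1, hk1, le_refl _, hBB1, hT10, ?_, ?_, ?_, le_refl _, hh00.le, ?_, ?_, hpow,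
    hT, by positivity, hK01, lt_of_lt_of_le (by positivity) hgapge, ?_, ?_, ?_, ?_, hL1⟩
  · -- hc1
    have h1 : 2 * ((r + 1 : ℕ) : ℝ) * lam ≤ 2 * ((r + 1 : ℕ) : ℝ) * (1 / L) :=
      mul_le_mul_of_nonneg_left hlL (by positivity)
    refine h1.trans ?_
    rw [mul_one_div, div_le_iff₀ hL0]
    rw [div_le_iff₀ hε] at e3
    linarith
  · -- hc2
    have h1 : lam * T1 ^ (r + 1 - 1) ≤ 1 / L := by
      have h2 : T1 ^ (r + 1 - 1) ≤ L ^ (r + 1 - 1) := pow_le_pow_left₀ hT10.le hT1L _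
      have h3 : L ^ (r + 1 - 1) * L ≤ L ^ n := by
        rw [← pow_succ]
        exact pow_le_pow_right₀ hL1 (by omega)
      calc lam * T1 ^ (r + 1 - 1) ≤ lam * L ^ (r + 1 - 1) :=
            mul_le_mul_of_nonneg_left h2 hl0.le
        _ ≤ 1 / L := by
            rw [hlam, one_div_mul_eq_div, div_le_div_iff₀ hLn hL0]
            linarith
    have h4 : 2 ^ (r + 1) * (r + 1).factorial / (ε / 2) ^ (r + 1 - 1) *
      (((r + 1 : ℕ) : ℝ) * lam * T1 ^ (r + 1 - 1)) = C * (lam * T1 ^ (r + 1 - 1)) := by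
      rw [hC]; ring
    rw [h4]
    have h5 : C * (lam * T1 ^ (r + 1 - 1)) ≤ C * (1 / L) := mul_le_mul_of_nonneg_left h1 hC0
    have h6 : (1 + C) * (1 / L) ≤ ε / 2 := by
      rw [mul_one_div, div_le_iff₀ hL0]
      rw [div_le_iff₀ hε] at e4
      linarith
    nlinarith
  · -- hc3
    have h1 : 2 * ((k ^ r : ℕ) : ℝ) ≤ ε * Real.exp (ε * L) := by
      have h2 : 2 * ((k ^ r : ℕ) : ℝ) ≤ ε * (2 / ε * L ^ ((n + 4) * r)) := by
        have : ε * (2 / ε * L ^ ((n + 4) * r)) = 2 * L ^ ((n + 4) * r) := by field_simp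
        rw [this]; linarith
      exact h2.trans (mul_le_mul_of_nonneg_left e5 hε.le)
    have h3 : Real.exp T1 * Real.exp (ε * L) = E0 := by
      rw [hT1, hE0, ← Real.exp_add]; congr 1; ring
    rw [← mul_div_assoc, le_div_iff₀ (by positivity), ← h3]
    calc Real.exp T1 * (2 * ((k ^ r : ℕ) : ℝ)) ≤ Real.exp T1 * (ε * Real.exp (ε * L)) :=
          mul_le_mul_of_nonneg_left h1 (Real.exp_pos _).le
      _ = ε * (Real.exp T1 * Real.exp (ε * L)) := by ring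
  · -- hE
    rw [hE0]
    have h1 := Real.add_one_le_exp ((1 - ε) * L)
    nlinarith
  · linarith
  · -- hgap
    have hRHS : ε * (ε * Δ) ≤ ε * (h0 * ((1 + 2 * ε) * Δ / h0) - Δ - h0 * (1 + E0 / lam)) :=
      mul_le_mul_of_nonneg_left hgapge hε.le
    refine le_trans ?_ hRHS
    have hA : h0 * E0 * ((1 + 2 * ε) * Δ / h0 * ((Δ : ℝ) / (1 + lam) ^ k)) ≤
        ε ^ 2 / 2 * Δ := by
      have h1 : h0 * E0 * ((1 + 2 * ε) * Δ / h0 * ((Δ : ℝ) / (1 + lam) ^ k)) =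
          E0 * (1 + 2 * ε) * Δ * Δ / (1 + lam) ^ k := by
        field_simp
      rw [h1, div_le_iff₀ (by positivity)]
      have h2 : E0 ≤ Δ := by
        rw [hE0, ← hexpL]
        exact Real.exp_le_exp.2 (by nlinarith)
      have hj3 : 3 ≤ j := by
        have : (3 : ℝ) ≤ j := by linarith
        exact_mod_cast this
      have h3 : 2 * ((Δ : ℝ)) ^ 3 ≤ (1 + lam) ^ k := by
        refine le_trans ?_ hpow
        have h4 : (Δ : ℝ) ^ 3 ≤ ((Δ : ℝ) + 1) ^ j := by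
          calc (Δ : ℝ) ^ 3 ≤ ((Δ : ℝ) + 1) ^ 3 := pow_le_pow_left₀ (by linarith) (by linarith) 3
            _ ≤ _ := pow_le_pow_right₀ (by linarith) hj3
        linarith
      have h5 : 3 / ε ^ 2 ≤ Δ := by
        have := Real.add_one_le_exp L
        linarith
      rw [div_le_iff₀ (by positivity)] at h5
      calc E0 * (1 + 2 * ε) * Δ * Δ ≤ Δ * 3 * Δ * Δ := by
            have : E0 * (1 + 2 * ε) ≤ Δ * 3 :=
              mul_le_mul h2 (by linarith) (by linarith) (by linarith)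
            gcongr
        _ ≤ Δ * (Δ * ε ^ 2) * Δ * Δ := by gcongr
        _ = ε ^ 2 / 2 * Δ * (2 * Δ ^ 3) := by ring
        _ ≤ ε ^ 2 / 2 * Δ * (1 + lam) ^ k := by gcongr
    have hB : h0 * E0 * (Real.exp (K0 * (ε / (2 * K0) * L)) *
        ((((k ^ r : ℕ)) : ℝ) ^ (r + 1) * ((r + 1 : ℕ) : ℝ) *
        ((((k ^ r : ℕ)) : ℝ) ^ (r + 1) * ((r + 1 : ℕ) : ℝ))) * (2 / lam)) ≤ ε ^ 2 / 2 * Δ := by
      have h1 : (K0 : ℝ) * (ε / (2 * K0) * L) = ε / 2 * L := by field_simp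
      rw [h1]
      have h2 : (((k ^ r : ℕ)) : ℝ) ^ (r + 1) ≤ L ^ ((n + 4) * (r * (r + 1))) := by
        calc (((k ^ r : ℕ)) : ℝ) ^ (r + 1) ≤ (L ^ ((n + 4) * r)) ^ (r + 1) :=
              pow_le_pow_left₀ hBBp.le hBBle _
          _ = L ^ ((n + 4) * (r * (r + 1))) := by rw [← pow_mul]; congr 1; ring
      have h3 : 2 / lam = 2 * L ^ n := by rw [hlam]; field_simp
      rw [h3]
      set X : ℝ := L ^ ((n + 4) * (r * (r + 1))) with hX
      have hX0 : 0 ≤ X := by positivity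
      have h4 : h0 * E0 * (Real.exp (ε / 2 * L) *
          ((((k ^ r : ℕ)) : ℝ) ^ (r + 1) * ((r + 1 : ℕ) : ℝ) *
          ((((k ^ r : ℕ)) : ℝ) ^ (r + 1) * ((r + 1 : ℕ) : ℝ))) * (2 * L ^ n)) ≤
          L * E0 * (Real.exp (ε / 2 * L) * (X * ((r + 1 : ℕ) : ℝ) * (X * ((r + 1 : ℕ) : ℝ))) *
            (2 * L ^ n)) := by
        gcongr
      refine h4.trans ?_
      have h5 : L * E0 * (Real.exp (ε / 2 * L) * (X * ((r + 1 : ℕ) : ℝ) *
          (X * ((r + 1 : ℕ) : ℝ))) * (2 * L ^ n)) =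
          ε ^ 2 / 2 * (E0 * Real.exp (ε / 2 * L) * (4 * ((r + 1 : ℕ) : ℝ) ^ 2 / ε ^ 2 *
            (L ^ (n + 1) * (X * X)))) := by
        rw [pow_succ]; field_simp; ring
      have h6 : L ^ (n + 1) * (X * X) = L ^ (n + 1 + (n + 4) * (r * (r + 1) * 2)) := by
        rw [hX, ← pow_add, ← pow_add]; congr 1; ring
      rw [h5, h6]
      calc ε ^ 2 / 2 * (E0 * Real.exp (ε / 2 * L) * (4 * ((r + 1 : ℕ) : ℝ) ^ 2 / ε ^ 2 *
            L ^ (n + 1 + (n + 4) * (r * (r + 1) * 2))))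
          ≤ ε ^ 2 / 2 * (E0 * Real.exp (ε / 2 * L) * Real.exp (ε / 2 * L)) := by gcongr
        _ = ε ^ 2 / 2 * Δ := by
          rw [hE0, ← Real.exp_add, ← Real.exp_add, ← hexpL]
          congr 2; ring
    calc _ = h0 * E0 * ((1 + 2 * ε) * Δ / h0 * ((Δ : ℝ) / (1 + lam) ^ k)) +
        h0 * E0 * (Real.exp (K0 * (ε / (2 * K0) * L)) *
        ((((k ^ r : ℕ)) : ℝ) ^ (r + 1) * ((r + 1 : ℕ) : ℝ) *
        ((((k ^ r : ℕ)) : ℝ) ^ (r + 1) * ((r + 1 : ℕ) : ℝ))) * (2 / lam)) := by ring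
      _ ≤ ε ^ 2 / 2 * Δ + ε ^ 2 / 2 * Δ := add_le_add hA hB
      _ = ε * (ε * Δ) := by ring
  · -- hpos
    have h1 : Real.exp (-(ε / (2 * K0) * L)) * Δ / ((1 + 2 * ε) * Δ / h0) =
        Real.exp (-(ε / (2 * K0) * L)) * h0 / (1 + 2 * ε) := by
      field_simp
    rw [h1, div_le_iff₀ (by positivity)]
    have h2 : Real.exp (-(ε / (2 * K0) * L)) * h0 ≤ ε := by
      rw [Real.exp_neg, inv_mul_le_iff₀ (Real.exp_pos _)]
      rw [pow_one, one_div, inv_mul_le_iff₀ hε] at e9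
      linarith
    nlinarith
  · rw [div_le_iff₀ hK0p]
    rw [div_le_iff₀ hε] at hK0'
    linarith
  · rw [hh0, hT1]
    field_simp

end Pool.Agent.Helper953TT
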