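import Mathlib
import Pool.Agent.Helper953_TT.Assemble
import Pool.Agent.Helper953_TT.Num

set_option autoImplicit false

/-!
# The weighted and the fractional bound
-/

namespace Pool.Agent.Helper953TT

open Finset Classical Pool.Agent.TH855

theorem embed {W V : Type} [Fintype W] {F : SimpleGraph W} {G : SimpleGraph V}
    (c : F.Coloring (Fin 3)) (A : Fin 3 → Finset V) (hA : ∀ i, Fintype.card W ≤ (A i).card)
    (hj : ∀ i j, i ≠ j → ∀ x ∈ A i, ∀ y ∈ A j, G.Adj x y) : ¬ F.Free G := by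
  intro hfree
  apply hfree
  have hg : ∀ i, Nonempty (W ↪ (A i : Finset V)) := fun i =>
    Function.Embedding.nonempty_of_card_le (by rw [Fintype.card_coe]; exact hA i)
  have g : ∀ i, W ↪ (A i : Finset V) := fun i => (hg i).some
  refine ⟨⟨⟨fun w => (g (c w) w).1, ?_⟩, ?_⟩⟩
  · intro a b hab
    exact hj (c a) (c b) (c.valid hab) _ (g (c a) a).2 _ (g (c b) b).2
  · intro a b hab
    have hab' : (g (c a) a).1 = (g (c b) b).1 := hab
    by_cases hc : c a = c b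
    · rw [hc] at hab'
      exact (g (c b)).injective (Subtype.ext hab')
    · exfalso
      have := hj (c a) (c b) hc _ (g (c a) a).2 _ (g (c b) b).2
      rw [hab'] at this
      exact G.irrefl this

theorem embed_clique {W V : Type} [Fintype W] {F : SimpleGraph W} {G : SimpleGraph V}
    (C : Finset V) (hC : Fintype.card W ≤ C.card)
    (hcl : ∀ x ∈ C, ∀ y ∈ C, x ≠ y → G.Adj x y) : ¬ F.Free G := by
  intro hfree
  apply hfree
  have hg : Nonempty (W ↪ (C : Finset V)) :=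
    Function.Embedding.nonempty_of_card_le (by rw [Fintype.card_coe]; exact hC)
  obtain ⟨g⟩ := hg
  refine ⟨⟨⟨fun w => (g w).1, ?_⟩, ?_⟩⟩
  · intro a b hab
    refine hcl _ (g a).2 _ (g b).2 fun h => ?_
    exact hab.ne (g.injective (Subtype.ext h))
  · intro a b hab
    exact g.injective (Subtype.ext hab)

/-- Weighted form. -/
theorem weighted {W : Type} [Fintype W] (F : SimpleGraph W) (hF : F.Colorable 3) {ε : ℝ}
    (hε : 0 < ε) (hε4 : ε ≤ 1 / 4) :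
    ∃ D0 : ℕ, ∀ Δ : ℕ, D0 ≤ Δ → 1 ≤ Real.log Δ ∧ ∀ (V : Type) [Fintype V] (G : SimpleGraph V),
      F.Free G → (∀ v, (G.neighborSet v).ncard ≤ Δ) → ∀ w : V → ℝ, (∀ v, 0 ≤ w v) →
      ∃ I ∈ Ind G Finset.univ, ∑ v, w v ≤
        (1 + 2 * ε) / ((1 - ε) ^ 3 * (1 - 2 * ε) ^ 2) * (Δ / Real.log Δ) * ∑ v ∈ I, w v := by
  obtain ⟨c⟩ := hF
  set r : ℕ := Fintype.card W - 1 with hr
  have hrW : Fintype.card W ≤ r + 1 := by omega
  obtain ⟨D0, hD0⟩ := params r hε hε4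
  refine ⟨D0, fun Δ hΔ => ?_⟩
  obtain ⟨lam, T1, E0, h0, T, s, j, k, BB, K0, hl, hl1, hk, hBBk, hBB, hT1, hc1, hc2, hc3, hh0,
    hh00, hE, hj, hkj, hT, hs, hK0, hgap0, hgap, hpos, hKε, hTe, hlog⟩ := hD0 Δ hΔ
  refine ⟨hlog, ?_⟩
  intro V _ G hfree hdeg w hw
  have hcl : ∀ C : Finset V, C.card = r + 1 → ¬ ∀ x ∈ C, ∀ y ∈ C, x ≠ y → G.Adj x y :=
    fun C hC h => embed_clique C (by omega) h hfree
  have hCF : ∀ W1 W2 : Finset V, W1.card = r + 1 → W2.card = r + 1 →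
      (∀ x ∈ W1, ∀ y ∈ W2, G.Adj x y) → (Cen G W1 W2).card ≤ r + 1 := by
    intro W1 W2 h1 h2 h12
    by_contra h
    push Not at h
    refine embed c ![W1, W2, Cen G W1 W2] ?_ ?_ hfree
    · intro i
      fin_cases i
      · simp; omega
      · simp; omega
      · simp; omega
    · have hC : ∀ z ∈ Cen G W1 W2, (∀ x ∈ W1, G.Adj z x) ∧ ∀ y ∈ W2, G.Adj z y := by
        intro z hz
        rw [Cen, Finset.mem_filter] at hz
        exact hz.2
      intro i j hij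
      fin_cases i <;> fin_cases j
      · exact absurd rfl hij
      · exact h12
      · exact fun x hx y hy => ((hC y hy).1 x hx).symm
      · exact fun x hx y hy => (h12 y hy x hx).symm
      · exact absurd rfl hij
      · exact fun x hx y hy => ((hC y hy).2 x hx).symm
      · exact fun x hx y hy => (hC x hx).1 y hy
      · exact fun x hx y hy => (hC x hx).2 y hy
      · exact absurd rfl hij
  have hdeg' : ∀ v : V, (Nb G Finset.univ v).card ≤ Δ := by
    intro v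
    have h1 := hdeg v
    have h2 : G.neighborSet v = ((Nb G Finset.univ v : Finset V) : Set V) := by
      ext u
      simp [Nb]
    rw [h2, Set.ncard_coe_finset] at h1
    exact h1
  obtain ⟨I, hI, h⟩ := assemble (G := G) hl hl1 hk hBBk hBB hε (by linarith) hT1 hc1 hc2 hc3 hh0
    hh00 hE hj hkj hcl hCF hdeg' hT hs hK0 hgap0 hgap (hpos.trans (by linarith)) w hw
  refine ⟨I, hI, ?_⟩
  set S : ℝ := ∑ v, w v with hS
  have hS0 : 0 ≤ S := Finset.sum_nonneg fun v _ => hw v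
  have h1 : (1 - ε) * (1 - 2 * ε) * S ≤ T * ∑ v ∈ I, w v := by
    refine le_trans ?_ h
    refine mul_le_mul_of_nonneg_right ?_ hS0
    refine mul_le_mul ?_ ?_ (by linarith) ?_
    · linarith
    · linarith
    · linarith
  have h2 : T = (1 + 2 * ε) * (Δ / Real.log Δ) / ((1 - ε) ^ 2 * (1 - 2 * ε)) := by
    rw [eq_div_iff, hTe]
    have : (0 : ℝ) < 1 - ε := by linarith
    have : (0 : ℝ) < 1 - 2 * ε := by linarith
    positivity
  have h3 : (0 : ℝ) < 1 - ε := by linarith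
  have h4 : (0 : ℝ) < 1 - 2 * ε := by linarith
  have h5 : S ≤ T * (∑ v ∈ I, w v) / ((1 - ε) * (1 - 2 * ε)) := by
    rw [le_div_iff₀ (by positivity)]
    linarith
  refine h5.trans (le_of_eq ?_)
  rw [h2]
  field_simp

/-- Fractional form. -/
theorem fractional {W : Type} [Fintype W] (F : SimpleGraph W) (hF : F.Colorable 3) (ε : ℝ)
    (hε : 0 < ε) :
    ∃ D0 : ℕ, ∀ Δ : ℕ, D0 ≤ Δ → ∀ (V : Type) [Fintype V] (G : SimpleGraph V),
      F.Free G → (∀ v, (G.neighborSet v).ncard ≤ Δ) →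
      (∃ x : Finset V → ℝ, (∀ I, 0 ≤ x I) ∧ (∀ I, x I ≠ 0 → G.IsIndepSet (I : Set V)) ∧
        (∀ v, 1 ≤ ∑ I : Finset V, if v ∈ I then x I else 0) ∧
        ∑ I : Finset V, x I ≤ (1 + ε) * (Δ / Real.log Δ)) ∧
      ∃ I : Finset V, G.IsIndepSet (I : Set V) ∧
        (Fintype.card V : ℝ) ≤ (1 + ε) * (Δ / Real.log Δ) * I.card := by
  set δ : ℝ := min ε 1 / 20 with hδ
  have hδ0 : 0 < δ := by
    have : 0 < min ε 1 := lt_min hε one_pos
    positivity
  have hδε : 20 * δ ≤ ε := by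
    rw [hδ]; linarith [min_le_left ε (1 : ℝ)]
  have hδ1 : 20 * δ ≤ 1 := by
    rw [hδ]; linarith [min_le_right ε (1 : ℝ)]
  obtain ⟨D0, hD0⟩ := weighted F hF hδ0 (by linarith)
  refine ⟨D0, fun Δ hΔ V _ G hfree hdeg => ?_⟩
  obtain ⟨hlog, h⟩ := hD0 Δ hΔ
  have hcon : (1 + 2 * δ) / ((1 - δ) ^ 3 * (1 - 2 * δ) ^ 2) ≤ 1 + ε := by
    have h1 : 1 - 3 * δ ≤ (1 - δ) ^ 3 := by nlinarith [sq_nonneg δ]
    have h2 : 1 - 4 * δ ≤ (1 - 2 * δ) ^ 2 := by nlinarith [sq_nonneg δ]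
    have h3 : (1 - 3 * δ) * (1 - 4 * δ) ≤ (1 - δ) ^ 3 * (1 - 2 * δ) ^ 2 :=
      mul_le_mul h1 h2 (by linarith) (le_trans (by linarith) h1)
    have h4 : 1 - 7 * δ ≤ (1 - δ) ^ 3 * (1 - 2 * δ) ^ 2 := by nlinarith [sq_nonneg δ]
    have h5 : 0 < (1 - δ) ^ 3 * (1 - 2 * δ) ^ 2 := lt_of_lt_of_le (by linarith) h4
    rw [div_le_iff₀ h5]
    have h6 : (1 + 20 * δ) * (1 - 7 * δ) ≤ (1 + ε) * ((1 - δ) ^ 3 * (1 - 2 * δ) ^ 2) :=
      mul_le_mul (by linarith) h4 (by linarith) (by linarith)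
    nlinarith
  have hΔ0 : (0 : ℝ) < Δ := by
    by_contra hneg
    have : (Δ : ℝ) = 0 := le_antisymm (not_lt.1 hneg) (by positivity)
    rw [this, Real.log_zero] at hlog
    linarith
  have hQ : 0 < (Δ : ℝ) / Real.log Δ := div_pos hΔ0 (by linarith)
  have hT : 0 < (1 + ε) * ((Δ : ℝ) / Real.log Δ) := by positivity
  have hw : ∀ w : V → ℝ, (∀ v, 0 ≤ w v) → ∃ I ∈ Ind G Finset.univ,
      ∑ v, w v ≤ (1 + ε) * ((Δ : ℝ) / Real.log Δ) * ∑ v ∈ I, w v := by
    intro w hw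
    obtain ⟨I, hI, h1⟩ := h V G hfree hdeg w hw
    refine ⟨I, hI, h1.trans ?_⟩
    refine mul_le_mul_of_nonneg_right ?_ (Finset.sum_nonneg fun v _ => hw v)
    exact mul_le_mul_of_nonneg_right hcon hQ.le
  have hInd : ∀ I ∈ Ind G Finset.univ, G.IsIndepSet (I : Set V) := by
    intro I hI
    rw [mem_ind] at hI
    intro u hu v hv _
    exact hI.2 u (by exact_mod_cast hu) v (by exact_mod_cast hv)
  refine ⟨?_, ?_⟩
  · obtain ⟨x, h1, h2, h3, h4⟩ := dual (Ind G Finset.univ) hT hw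
    exact ⟨x, h1, fun I hI => hInd I (h2 I hI), h3, h4⟩
  · obtain ⟨I, hI, h1⟩ := hw (fun _ => 1) (fun _ => zero_le_one)
    refine ⟨I, hInd I hI, ?_⟩
    simpa using h1

end Pool.Agent.Helper953TT
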